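import Pool.Agent.MP_3ce0a0_al.Q2T2.Spec

/-!
Realisation of a group extension on a free splitting: working definitions, the statements taken
from the other blocks, and the statements of the rows.
-/

set_option autoImplicit false

namespace Pool.Agent.MP_3ce0a0_al.Q2T11

open Q2T1 Q2T2 Filter MulAction

noncomputable section

/-- A non-empty simplicial tree with an isometric action. -/
structure Tr (G : Type) [Group G] where
  /-- the vertices -/
  V : Type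
  [ms : MetricSpace V]
  [act : MulAction G V]
  [iso : IsIsometricSMul G V]
  [simp : IsSimp V]
  [ne : Nonempty V]

attribute [instance] Tr.ms Tr.act Tr.iso Tr.simp Tr.ne

section Defs

variable {G H : Type} [Group G] [Group H]

/-- Restriction of the action along a homomorphism. -/
def Tr.res (T : Tr G) (φ : H →* G) : Tr H :=
  { V := T.V, ms := T.ms, act := MulAction.compHom T.V φ, simp := T.simp, ne := T.ne
    iso := @IsIsometricSMul.mk H T.V _ (MulAction.compHom T.V φ).toSMul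
      fun h => isometry_smul T.V (φ h) }

theorem Tr.res_smul (T : Tr G) (φ : H →* G) (h : H) (x : (T.res φ).V) :
    h • x = (φ h • (show T.V from x) : T.V) := rfl

theorem Tr.res_dist (T : Tr G) (φ : H →* G) (x y : (T.res φ).V) :
    dist x y = dist (show T.V from x) (show T.V from y) := rfl

section

variable (X : Type) [MetricSpace X] [MulAction G X]

/-- The group acts trivially on the oriented quotient by `U`. -/
def Triv (U : Subgroup G) : Prop := ∀ a : G, TrivQ X U a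

/-- The actions of `a` and `h` commute. -/
def CA (a h : G) : Prop := ∀ w : X, a • h • w = h • a • w

end

/-- Free of rank `k`. -/
def Fr (U : Subgroup G) (k : ℕ) : Prop := Nonempty (U ≃* FreeGroup (Fin k))

/-- The conjugates of `g` lie in finitely many `U`-conjugacy classes. -/
def FinOrb (U : Subgroup G) (g : G) : Prop :=
  ∃ P : Set G, P.Finite ∧ ∀ b : G, ∃ f ∈ U, f * (b * g * b⁻¹) * f⁻¹ ∈ P

/-- The group generated by the elements of `A` in `U`. -/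
def NN (A : Set G) (U : Subgroup G) : Subgroup G := Subgroup.closure (A ∩ U)

/-- `d` centralises `F` modulo `N`. -/
def Cen (F N : Subgroup G) (d : G) : Prop := ∀ g ∈ F, d * g * d⁻¹ * g⁻¹ ∈ N

/-- Every element has a power that is inner modulo `NN A U`. -/
def H3 (F : Subgroup G) (A : Set G) (U : Subgroup G) : Prop :=
  ∀ b : G, ∃ m : ℕ, 0 < m ∧ ∃ f ∈ F, Cen F (NN A U) (f⁻¹ * b ^ m)

/-- The hypotheses on the group, the free normal subgroup and the set of elliptic elements. -/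
structure Pre (k : ℕ) (F : Subgroup G) (A : Set G) : Prop where
  nrm : F.Normal
  fg : Group.FG G
  fr : Fr F k
  tree : ∃ S : Tr F, NoInv S.V (⊤ : Subgroup F) ∧ TE S.V (⊤ : Subgroup F) ∧
    ∀ g : F, Ell S.V g ↔ (g : G) ∈ A
  sub : A ⊆ F
  conj : ∀ b : G, ∀ g ∈ A, b * g * b⁻¹ ∈ A
  h2 : ∀ g ∈ F, FinOrb F g → g ∈ A

/-- A sequence of normal subgroups of finite index in `F` that separates the elements. -/
structure Sq (F : Subgroup G) (Φ : ℕ → Subgroup G) : Prop where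
  le : ∀ j, Φ j ≤ F
  nrm : ∀ j, (Φ j).Normal
  fi : ∀ j, (Φ j).relIndex F ≠ 0
  sep : ∀ g : G, g ≠ 1 → ∀ᶠ j in atTop, g ∉ Φ j

/-- The trees that are looked for. -/
structure Good (T : Tr G) (F : Subgroup G) (A : Set G) : Prop where
  noinv : NoInv T.V (⊤ : Subgroup G)
  te : TE T.V F
  coc : Cocpt F T.V
  ell : ∀ g ∈ F, (Ell T.V g ↔ g ∈ A)

/-- The whole group acts on such a tree. -/
def Full (F : Subgroup G) (A : Set G) : Prop := ∃ T : Tr G, Good T F A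

/-- A subgroup of finite index acts on such a tree. -/
def Out (F : Subgroup G) (A : Set G) : Prop :=
  ∃ E : Subgroup G, E.FiniteIndex ∧ F ≤ E ∧ Full (F.comap E.subtype) (E.subtype ⁻¹' A)

/-- A non-trivial minimal free splitting in which `A` is elliptic. -/
structure Split (T : Tr G) (F : Subgroup G) (A : Set G) : Prop where
  noinv : NoInv T.V F
  te : TE T.V F
  coc : Cocpt F T.V
  ell : ∀ g ∈ A, Ell T.V g
  nofix : ∀ x : T.V, ∃ g ∈ F, g • x ≠ x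
  mini : ∀ x y : T.V, dist x y = 1 → ∃ g ∈ F, Btw x y (g • x)

/-- The quotient of a tree by a normal subgroup. -/
structure Quo (T : Tr G) (N : Subgroup G) (Y : Tr G) (π : T.V → Y.V) : Prop where
  surj : Function.Surjective π
  equi : ∀ (g : G) x, π (g • x) = g • π x
  fib : ∀ x y, π x = π y ↔ ∃ n ∈ N, n • x = y
  edge : ∀ x y, dist x y = 1 → dist (π x) (π y) = 1
  lift : ∀ x v, dist (π x) v = 1 → ∃ y, dist x y = 1 ∧ π y = v
  uniq : ∀ x y x' y', dist x y = 1 → dist x' y' = 1 → π x = π x' → π y = π y' →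
    ∃ n ∈ N, n • x = x' ∧ n • y = y'

/-- The situation after dividing by `NN A (Φ j)`. -/
structure Lev (F Φ : Subgroup G) : Prop where
  nF : F.Normal
  nΦ : Φ.Normal
  le : Φ ≤ F
  fi : Φ.relIndex F ≠ 0
  fg : F.FG
  tree : ∃ S : Tr F, NoInv S.V (⊤ : Subgroup F) ∧ TE S.V (⊤ : Subgroup F) ∧
    (∀ g : F, (g : G) ∈ Φ → Ell S.V g → g = 1) ∧ ∃ h : F, Hyp S.V h
  na : ∃ a ∈ F, ∃ b ∈ F, ¬ Commute (a ^ 2) (b ^ 2)
  tor : ∀ b : G, ∃ m : ℕ, 0 < m ∧ ∃ f ∈ F, ∀ g ∈ F, Commute (f⁻¹ * b ^ m) g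

/-- The approximating trees. -/
structure Appr (Y : Tr G) (F : Subgroup G) (A : Set G) (U : Subgroup G) : Prop where
  edge : ∀ g ∈ F, ∀ y z : Y.V, y ≠ z → g • y = y → g • z = z → g ∈ U ∧ ∀ w : Y.V, g • w = w
  nofix : ∀ y : Y.V, ∃ g ∈ F, g • y ≠ y
  ell : ∀ g ∈ A, Ell Y.V g

end Defs

/-! ### Statements taken from the other blocks -/

/-- The quotient by a group generated by elliptic elements is a tree. -/
def InX6 : Prop := ∀ (G : Type) [Group G] (T : Tr G) (N : Subgroup G), N.Normal →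
  NoInv T.V (⊤ : Subgroup G) → N ≤ Subgroup.closure {g | g ∈ N ∧ Ell T.V g} →
    ∃ (Y : Tr G) (π : T.V → Y.V), Quo T N Y π

/-- Collapse of an invariant set of edges. -/
def InCOL : Prop := ∀ (G : Type) [Group G] (T : Tr G) (C : T.V → T.V → Prop),
  (∀ x y, C x y → dist x y = 1) → (∀ x y, C x y → C y x) →
  (∀ (g : G) x y, C x y → C (g • x) (g • y)) →
    ∃ (Y : Tr G) (π : T.V → Y.V), Function.Surjective π ∧ (∀ (g : G) x, π (g • x) = g • π x) ∧
      (∀ x y, π x = π y ↔ Relation.ReflTransGen C x y) ∧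
      (∀ u v, dist u v = 1 → ∃ x y, dist x y = 1 ∧ π x = u ∧ π y = v) ∧
      ∀ x y x' y', dist x y = 1 → dist x' y' = 1 → π x ≠ π y → π x = π x' → π y = π y' →
        x = x' ∧ y = y'

/-- Blow-up along trees of the vertex groups. -/
def InBU : Prop := ∀ (G : Type) [Group G] (T : Tr G) (R : Set T.V)
  (S : ∀ x : R, Tr (stabilizer G (x : T.V))), NoInv T.V (⊤ : Subgroup G) →
  (∀ y : T.V, ∃ x ∈ R, ∃ g : G, g • x = y) → (∀ x ∈ R, ∀ x' ∈ R, ∀ g : G, g • x = x' → x = x') →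
  (∀ x : R, NoInv (S x).V (⊤ : Subgroup (stabilizer G (x : T.V)))) →
  (∀ (x : R) (y : T.V), dist (x : T.V) y = 1 →
    ∃ p : (S x).V, ∀ b : stabilizer G (x : T.V), (b : G) • y = y → b • p = p) →
    ∃ (Z : Tr G) (π : Z.V → T.V) (ι : ∀ x : R, (S x).V → Z.V), NoInv Z.V (⊤ : Subgroup G) ∧
      (∀ (g : G) z, π (g • z) = g • π z) ∧ (∀ x v, π (ι x v) = x) ∧
      (∀ x v w, dist (ι x v) (ι x w) = dist v w) ∧
      (∀ (x : R) (b : stabilizer G (x : T.V)) v, ι x (b • v) = (b : G) • ι x v) ∧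
      (∀ (x : R) z, π z = x → ∃ v, ι x v = z) ∧
      (∀ z z', dist z z' = 1 → π z ≠ π z' → dist (π z) (π z') = 1) ∧
      ∀ z z' w w', dist z z' = 1 → dist w w' = 1 → π z ≠ π z' → π z = π w → π z' = π w' →
        z = w ∧ z' = w'

/-- Free actions. -/
def InFF : Prop := ∀ (G : Type) [Group G] (T : Tr G), NoInv T.V (⊤ : Subgroup G) →
  (∀ g : G, Ell T.V g → g = 1) → IsFreeGroup G

/-- The retraction to a vertex group. -/
def InUP : Prop := ∀ (G : Type) [Group G] (T : Tr G) (U : Subgroup G) (x : T.V), NoInv T.V U →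
  TE T.V U → ∃ r : U →* G, (∀ g, r g ∈ U ∧ r g • x = x) ∧ (∀ g : U, (g : G) • x = x → r g = g) ∧
    ∀ (g : U) (y : T.V), (g : G) • y = y → (∀ f ∈ U, f • x ≠ y) → r g = 1

/-- Vertex groups of a non-trivial free splitting have smaller rank. -/
def InDROP : Prop := ∀ (G : Type) [Group G] (T : Tr G) (U : Subgroup G) (k : ℕ) (x : T.V),
  Fr U k → NoInv T.V U → TE T.V U → Cocpt U T.V → (∀ y : T.V, ∃ g ∈ U, g • y ≠ y) →
    ∃ k' < k, Fr (U ⊓ stabilizer G x) k'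

/-- Limit tree and simplicial lemma. -/
def InLS : Prop := ∀ (G : Type) [Group G] (F : Subgroup G) (k : ℕ) (S : ℕ → Tr G), F.Normal →
  Group.FG G → 2 ≤ k → Fr F k →
  (∀ j, ∀ g ∈ F, ∀ y z : (S j).V, y ≠ z → g • y = y → g • z = z → ∀ w : (S j).V, g • w = w) →
  (∀ g ∈ F, g ≠ 1 → ∀ᶠ j in atTop, ∃ w : (S j).V, g • w ≠ w) →
  (∀ᶠ j in atTop, ∀ y : (S j).V, ∃ g ∈ F, g • y ≠ y) →
  (∀ g ∈ F, FinOrb F g → ∀ᶠ j in atTop, Ell (S j).V g) →
    ∃ T : Tr G, NoInv T.V F ∧ Cocpt F T.V ∧ (∀ x : T.V, ∃ g ∈ F, g • x ≠ x) ∧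
      (∀ x y : T.V, dist x y = 1 → ∃ g ∈ F, Btw x y (g • x)) ∧
      (∀ g ∈ F, ∀ h ∈ F, ∀ x y : T.V, dist x y = 1 → g • x = x → g • y = y → h • x = x →
        h • y = y → g * h = h * g) ∧
      ∀ g ∈ F, (∀ᶠ j in atTop, Ell (S j).V g) →
        Ell T.V g ∧ (g ≠ 1 → ∀ p q : T.V, g • p = p → g • q = q → p = q)

/-- Virtually free groups act on trees with finite stabilisers. -/
def InKPS : Prop := ∀ (G : Type) [Group G] (U : Subgroup G), U.Normal → U.FiniteIndex →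
  IsFreeGroup U → U.FG → (∃ a ∈ U, ∃ b ∈ U, ¬ Commute a b) →
    ∃ Y : Tr G, NoInv Y.V (⊤ : Subgroup G) ∧ ∀ y : Y.V, Finite (stabilizer G y)

/-- Torsion groups of outer automorphisms are finite. -/
def InTF : Prop := ∀ (V : Type) [Group V] (L : Subgroup (MulAut V)), IsFreeGroup V → Group.FG V →
  (∀ a ∈ L, ∃ m : ℕ, 0 < m ∧ ∃ v : V, a ^ m = MulAut.conj v) →
    (MulAut.conj : V →* MulAut V).range.relIndex L ≠ 0

/-! ### The rows -/

/-- Row PE: a geodesic embeds in the quotient. -/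
def StmtPE : Prop := ∀ (G : Type) [Group G] (T : Tr G) (U : Subgroup G), TE T.V U →
  ∀ x y : T.V, ∃ B : Set G, B.Finite ∧ (1 : G) ∉ B ∧
    ∀ (N : Subgroup G) (Y : Tr G) (π : T.V → Y.V), N ≤ U → Quo T N Y π → (∀ b ∈ B, b ∉ N) →
      dist (π x) (π y) = dist x y

/-- Row AX: the centraliser of a hyperbolic element translates its axis. -/
def StmtAX : Prop := ∀ (G : Type) [Group G] (T : Tr G) (h : G), Hyp T.V h →
  ∃ u v : T.V, dist u v = 1 ∧
    (∀ a b : G, CA T.V a h → CA T.V b h →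
      (a * b * a⁻¹ * b⁻¹) • u = u ∧ (a * b * a⁻¹ * b⁻¹) • v = v) ∧
    ∀ a : G, CA T.V a h → Ell T.V a → a • u = u ∧ a • v = v

/-- Row CY: the abelian case. -/
def StmtCY : Prop := ∀ (G : Type) [Group G] (k : ℕ) (F : Subgroup G) (A : Set G), Pre k F A →
  ((∀ a ∈ F, ∀ b ∈ F, Commute a b) → (F : Set G) ⊆ A) ∧
  (¬ (F : Set G) ⊆ A → 2 ≤ k ∧ ∃ a ∈ F, ∃ b ∈ F, ¬ Commute (a ^ 2) (b ^ 2)) ∧
  ((F : Set G) ⊆ A → Full F A)

/-- Row A1. -/
def StmtA1 : Prop := ∀ (G : Type) [Group G] (k : ℕ) (F : Subgroup G) (A : Set G)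
  (Φ : ℕ → Subgroup G), Pre k F A → Sq F Φ → (∀ᶠ j in atTop, H3 F A (Φ j)) →
  ¬ (F : Set G) ⊆ A → (∃ a ∈ F, ∃ b ∈ F, ¬ Commute (a ^ 2) (b ^ 2)) →
    ∀ᶠ j in atTop, ∀ (H : Type) [Group H] (q : G →* H), Function.Surjective q →
      q.ker = NN A (Φ j) → Lev (F.map q) ((Φ j).map q)

/-- Row A2. -/
def StmtA2 : Prop := ∀ (G : Type) [Group G] (F Φ : Subgroup G), Lev F Φ →
  IsFreeGroup Φ ∧ (∃ a ∈ Φ, ∃ b ∈ Φ, ¬ Commute a b) ∧ ∀ z ∈ F, (∀ t ∈ Φ, Commute z t) → z = 1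

/-- Row A3. -/
def StmtA3 : Prop := ∀ (G : Type) [Group G] (F Φ : Subgroup G), Lev F Φ → IsFreeGroup Φ →
  (∃ a ∈ Φ, ∃ b ∈ Φ, ¬ Commute a b) → (∀ z ∈ F, (∀ t ∈ Φ, Commute z t) → z = 1) →
    ∃ Y : Tr G, NoInv Y.V (⊤ : Subgroup G) ∧ ∀ y : Y.V, {g : G | g ∈ F ∧ g • y = y}.Finite

/-- Row A4. -/
def StmtA4 : Prop := ∀ (G : Type) [Group G] (F Φ : Subgroup G) (Y : Tr G), Lev F Φ →
  NoInv Y.V (⊤ : Subgroup G) → (∀ y : Y.V, {g : G | g ∈ F ∧ g • y = y}.Finite) →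
    ∃ Z : Tr G, NoInv Z.V (⊤ : Subgroup G) ∧ TE Z.V F ∧ ∀ z : Z.V, ∃ g ∈ F, g • z ≠ z

/-- Row A5. -/
def StmtA5 : Prop := ∀ (G : Type) [Group G] (k : ℕ) (F : Subgroup G) (A : Set G)
  (Φ : ℕ → Subgroup G), Pre k F A → Sq F Φ → (∀ᶠ j in atTop, H3 F A (Φ j)) →
  ¬ (F : Set G) ⊆ A → ∀ᶠ j in atTop, ∃ Y : Tr G, Appr Y F A (Φ j)

/-- Row B. -/
def StmtB : Prop := ∀ (G : Type) [Group G] (k : ℕ) (F : Subgroup G) (A : Set G)
  (Φ : ℕ → Subgroup G), Pre k F A → Sq F Φ → 2 ≤ k →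
  (∀ᶠ j in atTop, ∃ Y : Tr G, Appr Y F A (Φ j)) → ∃ T : Tr G, Split T F A

/-- Row C. -/
def StmtC : Prop := ∀ (G : Type) [Group G] (T : Tr G) (F : Subgroup G), F.Normal → Cocpt F T.V →
  NoInv T.V F → ∃ E : Subgroup G, E.FiniteIndex ∧ F ≤ E ∧
    Triv (T.res E.subtype).V (F.comap E.subtype) ∧ NoInv (T.res E.subtype).V (⊤ : Subgroup E)

/-- Row RES: the hypotheses pass to subgroups of finite index. -/
def StmtRES : Prop := ∀ (G H : Type) [Group G] [Group H] (φ : H →* G) (k : ℕ) (F : Subgroup G)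
  (A : Set G), Function.Injective φ → φ.range.FiniteIndex → F ≤ φ.range → Pre k F A →
    Pre k (F.comap φ) (φ ⁻¹' A) ∧
    (∀ Φ, Sq F Φ → Sq (F.comap φ) fun j => (Φ j).comap φ) ∧
    ∀ U, H3 F A U → H3 (F.comap φ) (φ ⁻¹' A) (U.comap φ)

/-- Row TR: the properties of trees pass to subgroups that contain `F`. -/
def StmtTR : Prop := ∀ (G H : Type) [Group G] [Group H] (φ : H →* G) (F : Subgroup G)
  (A : Set G) (T : Tr G), Function.Injective φ → F ≤ φ.range →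
    (Good T F A → Good (T.res φ) (F.comap φ) (φ ⁻¹' A)) ∧
    (Split T F A → Split (T.res φ) (F.comap φ) (φ ⁻¹' A)) ∧
    (Triv T.V F → Triv (T.res φ).V (F.comap φ)) ∧
    (NoInv T.V (⊤ : Subgroup G) → NoInv (T.res φ).V (⊤ : Subgroup H)) ∧
    (φ.range.FiniteIndex → Out (F.comap φ) (φ ⁻¹' A) → Out F A)

/-- Row K1. -/
def StmtK1 : Prop := ∀ (G : Type) [Group G] (k : ℕ) (F : Subgroup G) (A : Set G) (U : Subgroup G)
  (T : Tr G) (x : T.V), Pre k F A → U.Normal → Split T F A →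
    ∀ g : stabilizer G x, (g : G) ∈ NN A U →
      g ∈ NN ((stabilizer G x).subtype ⁻¹' A) (U.comap (stabilizer G x).subtype)

/-- Row K2. -/
def StmtK2 : Prop := ∀ (G : Type) [Group G] (k : ℕ) (F : Subgroup G) (A : Set G)
  (Φ : ℕ → Subgroup G) (T : Tr G) (x y : T.V), Pre k F A → Sq F Φ → Split T F A →
  NoInv T.V (⊤ : Subgroup G) → dist x y ≤ 1 → (∃ a ∈ F, a ≠ 1 ∧ a • x = x) →
    ∀ᶠ j in atTop, ∀ d : G, Cen F (NN A (Φ j)) d →
      ∃ n ∈ NN A (Φ j), n • x = d • x ∧ n • y = d • y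

/-- Row FG: finite generation of a supplement. -/
def StmtFG : Prop := ∀ (G : Type) [Group G] (F L : Subgroup G), F.Normal → Group.FG G →
  (∀ g : G, ∃ f ∈ F, f⁻¹ * g ∈ L) → (F ⊓ L).FG → L.FG

/-- Row D1. -/
def StmtD1 : Prop := ∀ (G : Type) [Group G] (k : ℕ) (F : Subgroup G) (A : Set G) (T : Tr G)
  (x : T.V), Pre k F A → Split T F A → Triv T.V F →
    (∃ k' < k, Pre k' (F.comap (stabilizer G x).subtype) ((stabilizer G x).subtype ⁻¹' A)) ∧
    ∀ Φ, Sq F Φ →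
      Sq (F.comap (stabilizer G x).subtype) fun j => (Φ j).comap (stabilizer G x).subtype

/-- Row D3. -/
def StmtD3 : Prop := ∀ (G : Type) [Group G] (k : ℕ) (F : Subgroup G) (A : Set G)
  (Φ : ℕ → Subgroup G) (T : Tr G) (x : T.V), Pre k F A → Sq F Φ →
  (∀ᶠ j in atTop, H3 F A (Φ j)) → Split T F A → NoInv T.V (⊤ : Subgroup G) →
    ∀ᶠ j in atTop, H3 (F.comap (stabilizer G x).subtype) ((stabilizer G x).subtype ⁻¹' A)
      ((Φ j).comap (stabilizer G x).subtype)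

/-- Row E1. -/
def StmtE1 : Prop := ∀ (G : Type) [Group G] (k : ℕ) (F : Subgroup G) (A : Set G)
  (Φ : ℕ → Subgroup G) (S : Tr G) (b : G), Pre k F A → Sq F Φ → Good S F A →
  (∀ᶠ j in atTop, ∃ m : ℕ, 0 < m ∧ Cen F (NN A (Φ j)) (b ^ m)) → Ell S.V b

/-- Row E2: attaching points. -/
def StmtE2 : Prop := ∀ (G : Type) [Group G] (k : ℕ) (F : Subgroup G) (A : Set G)
  (Φ : ℕ → Subgroup G) (T : Tr G) (x y : T.V) (S : Tr (stabilizer G x)), Pre k F A → Sq F Φ →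
  (∀ᶠ j in atTop, H3 F A (Φ j)) → Split T F A → NoInv T.V (⊤ : Subgroup G) → Triv T.V F →
  dist x y = 1 → Good S (F.comap (stabilizer G x).subtype) ((stabilizer G x).subtype ⁻¹' A) →
    ∃ p : S.V, ∀ b : stabilizer G x, (b : G) • y = y → b • p = p

/-- Row F: the blow-up. -/
def StmtF : Prop := ∀ (G : Type) [Group G] (k : ℕ) (F : Subgroup G) (A : Set G) (T : Tr G)
  (R : Set T.V) (S : ∀ x : R, Tr (stabilizer G (x : T.V))), Pre k F A → Split T F A →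
  NoInv T.V (⊤ : Subgroup G) → R.Finite → (∀ y : T.V, ∃ x ∈ R, ∃ g ∈ F, g • x = y) →
  (∀ x ∈ R, ∀ x' ∈ R, ∀ g : G, g • x = x' → x = x') →
  (∀ x : R, Good (S x) (F.comap (stabilizer G (x : T.V)).subtype)
    ((stabilizer G (x : T.V)).subtype ⁻¹' A)) →
  (∀ (x : R) (y : T.V), dist (x : T.V) y = 1 →
    ∃ p : (S x).V, ∀ b : stabilizer G (x : T.V), (b : G) • y = y → b • p = p) → Full F A

/-- Row H: the sequence of subgroups. -/
def StmtH : Prop := ∀ (G : Type) [Group G] (k : ℕ) (F : Subgroup G), F.Normal → Fr F k →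
  ∃ Φ, Sq F Φ

/-- Row FIN: minimal subtree and trivial action on the quotient. -/
def StmtFIN : Prop := ∀ (G : Type) [Group G] (k : ℕ) (F : Subgroup G) (A : Set G), Pre k F A →
  Out F A → ∃ E : Subgroup G, E.FiniteIndex ∧ F ≤ E ∧ ∃ T : Tr E,
    Good T (F.comap E.subtype) (E.subtype ⁻¹' A) ∧ Triv T.V (F.comap E.subtype) ∧
    ∀ x y z : T.V, y ≠ x → ∃ g ∈ F.comap E.subtype, g • z ∈ dir x y

/-- The result of the block. -/
def StmtKol : Prop := ∀ (G : Type) [Group G] (k : ℕ) (F : Subgroup G) (A : Set G), Pre k F A →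
  (∀ U : Subgroup G, U ≤ F → U.Normal → U.relIndex F ≠ 0 → H3 F A U) →
    ∃ E : Subgroup G, E.FiniteIndex ∧ F ≤ E ∧ ∃ T : Tr E,
      Good T (F.comap E.subtype) (E.subtype ⁻¹' A) ∧ Triv T.V (F.comap E.subtype) ∧
      ∀ x y z : T.V, y ≠ x → ∃ g ∈ F.comap E.subtype, g • z ∈ dir x y

end

end Pool.Agent.MP_3ce0a0_al.Q2T11
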