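import Pool.Agent.MP_3ce0a0_al.Q2T11.Spec
import Pool.Agent.MP_3ce0a0_al.Q2T1.Basic

/-! Division by the elliptic elements of a subgroup of finite index. -/

set_option autoImplicit false

namespace Pool.Agent.MP_3ce0a0_al.Q2T11

open Q2T1 Q2T2 Filter MulAction

namespace RA1

variable {G H : Type} [Group G] [Group H]

theorem desc (T : Tr G) (φ : G →* H) (hs : Function.Surjective φ)
    (hk : ∀ g, φ g = 1 → ∀ x : T.V, g • x = x) :
    ∃ (Z : Tr H) (e : T.V → Z.V), Function.Surjective e ∧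
      (∀ x y, dist (e x) (e y) = dist x y) ∧ ∀ (g : G) x, φ g • e x = e (g • x) := by
  have key : ∀ (g g' : G) (x : T.V), φ g = φ g' → g • x = g' • x := fun g g' x h => by
    have := hk (g'⁻¹ * g) (by rw [map_mul, map_inv, h, inv_mul_cancel]) x
    rwa [mul_smul, inv_smul_eq_iff] at this
  let act : MulAction H T.V :=
    { smul := fun h x => (hs h).choose • x
      one_smul := fun x => hk _ (hs 1).choose_spec x
      mul_smul := fun a b x => by
        show (hs (a * b)).choose • x = (hs a).choose • (hs b).choose • x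
        rw [← mul_smul]
        refine key _ _ x ?_
        rw [map_mul, (hs a).choose_spec, (hs b).choose_spec, (hs (a * b)).choose_spec] }
  refine ⟨{ V := T.V, ms := T.ms, act := act, simp := T.simp, ne := T.ne
            iso := @IsIsometricSMul.mk H T.V _ act.toSMul
              fun h => isometry_smul T.V (hs h).choose }, id, Function.surjective_id,
    fun _ _ => rfl, fun g x => key _ _ x (hs (φ g)).choose_spec⟩

theorem dich (T : Tr G) {g : G} (h : NoInv T.V (⊤ : Subgroup G)) : Ell T.V g ∨ Hyp T.V g := by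
  classical
  have ex : ∃ n : ℕ, ∃ x : T.V, dist x (g • x) = n :=
    ⟨_, Classical.arbitrary _, (IsSimp.int _ _).choose_spec⟩
  obtain ⟨x, hx⟩ := Nat.find_spec ex
  have hmin : ∀ y : T.V, dist x (g • x) ≤ dist y (g • y) := fun y => by
    obtain ⟨n, hn⟩ := IsSimp.int y (g • y)
    rw [hx, hn]
    exact Nat.cast_le.2 (Nat.find_min' ex ⟨y, hn⟩)
  by_cases h0 : g • x = x
  · exact Or.inl ⟨x, h0⟩
  obtain ⟨m, m1, m2, m3⟩ := IsTree.ex_med (g⁻¹ • x) x (g • x)
  by_cases hm : x = m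
  · exact Or.inr ⟨x, h0, hm ▸ m3⟩
  exfalso
  obtain ⟨z, z1, z2⟩ := IsSimp.geo x m hm
  have e0 : dist (g⁻¹ • x) x = dist x (g • x) := by
    rw [← dist_smul g, smul_inv_smul]
  have a1 : dist z (g • x) = dist x (g • x) - 1 := by
    have t1 := dist_triangle z m (g • x)
    have t2 := dist_triangle x z (g • x)
    unfold Q2T1.Btw at m2 z2
    linarith
  have a2 : dist (g⁻¹ • x) z = dist x (g • x) - 1 := by
    have t1 := dist_triangle (g⁻¹ • x) m z
    have t2 := dist_triangle (g⁻¹ • x) z x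
    unfold Q2T1.Btw at m1 z2
    rw [dist_comm m z] at t1
    rw [dist_comm z x] at t2
    rw [dist_comm m x] at m1
    linarith
  have a3 : dist x (g • z) = dist x (g • x) - 1 := by
    rw [← a2, ← dist_smul g (g⁻¹ • x), smul_inv_smul]
  have a4 : dist (g • x) (g • z) = 1 := by rw [dist_smul, z1]
  have f := IsTree.four x (g • x) z (g • z)
  rw [z1, a4, a3, dist_comm (g • x) z, a1] at f
  have b := hmin z
  have n0 : Nat.find ex ≠ 0 := fun e => h0 (by
    rw [e, Nat.cast_zero, dist_eq_zero] at hx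
    exact hx.symm)
  by_cases n1 : Nat.find ex = 1
  · rw [n1, Nat.cast_one] at hx
    rw [hx, sub_self, dist_eq_zero] at a1 a3
    exact h g trivial x hx (by rw [← a1, ← a3])
  · have : (2 : ℝ) ≤ Nat.find ex := by exact_mod_cast (show 2 ≤ Nat.find ex by omega)
    rw [← hx] at this
    rcases le_max_iff.1 f with f | f <;> linarith

theorem NN_le (A : Set G) (U : Subgroup G) : NN A U ≤ U :=
  (Subgroup.closure_le _).2 Set.inter_subset_right

theorem fg {F : Subgroup G} {k : ℕ} (h : Fr F k) : F.FG := by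
  obtain ⟨e⟩ := h
  have : Group.FG (FreeGroup (Fin k)) :=
    Group.fg_iff.2 ⟨_, FreeGroup.closure_range_of _, Set.finite_range _⟩
  exact (Group.fg_iff_subgroup_fg F).1 (Group.fg_of_surjective (f := e.symm.toMonoidHom)
    e.symm.surjective)

end RA1

open RA1 in
theorem rowA1 (hX : InX6) (hPE : StmtPE) : StmtA1 := by
  intro G _ k F A Φ P Q h3 hA hna
  obtain ⟨S, Sn, St, Se⟩ := P.tree
  obtain ⟨g0, g0F, g0A⟩ := Set.not_subset.1 hA
  obtain ⟨x0, x1, x2⟩ := (dich S Sn (g := ⟨g0, g0F⟩)).resolve_left fun h => g0A ((Se _).1 h)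
  set g1 : F := ⟨g0, g0F⟩
  obtain ⟨B1, f1, n1, p1⟩ := hPE F S ⊤ St (g1⁻¹ • x0) (g1 • x0)
  obtain ⟨B2, f2, n2, p2⟩ := hPE F S ⊤ St (g1⁻¹ • x0) x0
  obtain ⟨B3, f3, n3, p3⟩ := hPE F S ⊤ St x0 (g1 • x0)
  have av : ∀ B : Set F, B.Finite → (1 : F) ∉ B → ∀ᶠ j in atTop, ∀ b ∈ B, (b : G) ∉ Φ j :=
    fun B hB h1 => (eventually_all_finite hB).2 fun b hb =>
      Q.sep b fun e => h1 (by rwa [show b = 1 from Subtype.ext e] at hb)
  obtain ⟨a, ha, b, hb, hab⟩ := hna
  have hc : a ^ 2 * b ^ 2 * (a ^ 2)⁻¹ * (b ^ 2)⁻¹ ≠ 1 := fun e => hab (by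
    rw [mul_inv_eq_one, mul_inv_eq_iff_eq_mul] at e
    exact e)
  filter_upwards [h3, av B1 f1 n1, av B2 f2 n2, av B3 f3 n3, Q.sep _ hc] with j h3 a1 a2 a3 hc
  intro H _ q hq hk
  have mk : ∀ g, q g = 1 ↔ g ∈ NN A (Φ j) := fun g => by rw [← hk, MonoidHom.mem_ker]
  have NΦ := NN_le A (Φ j)
  have Nn : (NN A (Φ j)).Normal := hk ▸ q.normal_ker
  obtain ⟨Y, π, W⟩ := hX F S ((NN A (Φ j)).subgroupOf F) (Nn.subgroupOf F) Sn (by
    intro g hg
    have : (g : G) ∈ (Subgroup.closure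
        {g : F | g ∈ (NN A (Φ j)).subgroupOf F ∧ Ell S.V g}).map F.subtype := by
      refine (Subgroup.closure_le _).2 (fun u hu => ?_) hg
      exact ⟨⟨u, P.sub hu.1⟩, Subgroup.subset_closure
        ⟨Subgroup.subset_closure hu, (Se _).2 hu.1⟩, rfl⟩
    obtain ⟨u, hu, e⟩ := this
    rwa [show g = u from Subtype.ext e.symm])
  have triv : ∀ n ∈ (NN A (Φ j)).subgroupOf F, ∀ y : Y.V, n • y = y := fun n hn y => by
    obtain ⟨x, rfl⟩ := W.surj y
    rw [← W.equi]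
    exact ((W.fib _ _).2 ⟨n, hn, rfl⟩).symm
  have mk' : ∀ g : F, q.subgroupMap F g = 1 ↔ g ∈ (NN A (Φ j)).subgroupOf F := fun g => by
    rw [Subgroup.mem_subgroupOf, ← mk]
    exact Subtype.ext_iff
  obtain ⟨Z, e, es, ed, ee⟩ := desc Y (q.subgroupMap F) (q.subgroupMap_surjective F)
    fun g hg => triv g ((mk' g).1 hg)
  have ei : Function.Injective e := fun x y h => by rw [← dist_eq_zero, ← ed, h, dist_self]
  have edge : ∀ u v : Y.V, dist u v = 1 → ∃ x y, dist x y = 1 ∧ π x = u ∧ π y = v :=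
    fun u v h => by
      obtain ⟨x, rfl⟩ := W.surj u
      obtain ⟨y, h1, h2⟩ := W.lift x v h
      exact ⟨x, y, h1, rfl, h2⟩
  refine ⟨P.nrm.map q hq, (Q.nrm j).map q hq, Subgroup.map_mono (Q.le j), ?_,
    ?_, ⟨Z, ?_, ?_, ?_, q.subgroupMap F g1, e (π x0), ?_, ?_⟩,
    ⟨q a, ⟨a, ha, rfl⟩, q b, ⟨b, hb, rfl⟩, fun h => hc (NΦ ((mk _).1 ?_))⟩, fun c => ?_⟩
  · rw [Subgroup.relIndex_map_map, hk, sup_eq_left.2 NΦ, sup_eq_left.2 (NΦ.trans (Q.le j))]
    exact Q.fi j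
  · obtain ⟨S, hS⟩ := (Subgroup.fg_iff F).1 (fg P.fr)
    exact (Subgroup.fg_iff _).2 ⟨q '' S, by rw [← MonoidHom.map_closure, hS.1], hS.2.image q⟩
  · intro h _ u hu hh
    obtain ⟨g, rfl⟩ := q.subgroupMap_surjective F h
    obtain ⟨u, rfl⟩ := es u
    rw [ee, ed] at hu
    rw [ee, ee] at hh
    obtain ⟨x, y, h1, h2, h3⟩ := edge _ _ hu
    obtain ⟨n, -, e1, e2⟩ := W.uniq (g • x) (g • y) y x (by rw [dist_smul, h1])
      (by rw [dist_comm, h1]) (by rw [W.equi, h2, h3]) (by rw [W.equi, h3, ei hh, h2])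
    rw [← mul_smul] at e1 e2
    exact Sn (n * g) trivial x (by rw [e1, h1]) (by rw [e1, e2])
  · intro h _ u v huv hu hv
    obtain ⟨g, rfl⟩ := q.subgroupMap_surjective F h
    obtain ⟨u, rfl⟩ := es u
    obtain ⟨v, rfl⟩ := es v
    rw [ed] at huv
    rw [ee] at hu hv
    obtain ⟨x, y, h1, h2, h3⟩ := edge _ _ huv
    obtain ⟨n, hn, e1, e2⟩ := W.uniq (g • x) (g • y) x y (by rw [dist_smul, h1]) h1
      (by rw [W.equi, h2, ei hu]) (by rw [W.equi, h3, ei hv])
    rw [← mul_smul] at e1 e2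
    have := St (n * g) trivial x y h1 e1 e2
    rw [mk', eq_inv_of_mul_eq_one_right this]
    exact inv_mem hn
  · rintro h ⟨t, ht, e1⟩ ⟨u, hu⟩
    have e2 : q.subgroupMap F ⟨t, Q.le j ht⟩ = h := Subtype.ext e1
    obtain ⟨u, rfl⟩ := es u
    obtain ⟨x, rfl⟩ := W.surj u
    rw [← e2, ee] at hu
    have h1 := ei hu
    rw [← W.equi] at h1
    obtain ⟨n, hn, h2⟩ := (W.fib _ _).1 h1
    rw [← mul_smul] at h2
    have h4 : ((n * ⟨t, Q.le j ht⟩ : F) : G) ∈ NN A (Φ j) :=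
      Subgroup.subset_closure ⟨(Se _).1 ⟨x, h2⟩, mul_mem (NΦ hn) ht⟩
    rw [← e2, mk']
    exact (mul_mem_cancel_left hn).1 h4
  · have d3 := p3 _ Y π le_top W fun b hb h => a3 b hb (NΦ h)
    rw [ee, ← W.equi]
    intro h
    rw [ei h, dist_self] at d3
    exact x1 (dist_eq_zero.1 d3.symm).symm
  · rw [← map_inv, ee, ee, ← W.equi, ← W.equi, Q2T1.Btw, ed, ed, ed,
      p1 _ Y π le_top W fun b hb h => a1 b hb (NΦ h),
      p2 _ Y π le_top W fun b hb h => a2 b hb (NΦ h),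
      p3 _ Y π le_top W fun b hb h => a3 b hb (NΦ h)]
    exact x2
  · simp only [map_mul, map_inv, map_pow]
    rw [h.eq, mul_inv_cancel_right, mul_inv_cancel]
  · obtain ⟨c, rfl⟩ := hq c
    obtain ⟨m, hm, f, hf, hcen⟩ := h3 c
    refine ⟨m, hm, q f, ⟨f, hf, rfl⟩, ?_⟩
    rintro _ ⟨g, hg, rfl⟩
    have := (mk _).2 (hcen g hg)
    rw [map_mul, map_mul, map_mul, map_inv, map_inv, mul_inv_eq_one, mul_inv_eq_iff_eq_mul,
      map_mul, map_inv, map_pow] at this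
    exact this

end Pool.Agent.MP_3ce0a0_al.Q2T11
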