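import Pool.Agent.MP_3ce0a0_al.Q2T11.Spec
import Pool.Agent.MP_3ce0a0_al.Q2T1.Isom
import Pool.Agent.MP_3ce0a0_al.Q2T4A.Alg

/-!
Row A2: the subgroup of finite index is free, not abelian, and has trivial centraliser.
-/

set_option autoImplicit false

namespace Pool.Agent.MP_3ce0a0_al.Q2T11

open Q2T1 Q2T2 Filter MulAction

namespace RA2

variable {G : Type} [Group G]

theorem ell_of_sq (T : Tr G) (h : NoInv T.V (⊤ : Subgroup G)) (g : G) (n : ℕ) :
    ∀ m : T.V, dist m (g • m) ≤ n → g • g • m = m → Ell T.V g := by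
  induction n with
  | zero => exact fun m hm _ => ⟨m, (dist_le_zero.1 (by simpa using hm)).symm⟩
  | succ n ih =>
    intro m hm hg
    by_cases e : m = g • m
    · exact ⟨m, e.symm⟩
    obtain ⟨z, hz, hb⟩ := IsSimp.geo m (g • m) e
    have hb' : Btw m (g • z) (g • m) := by
      have := BAct.btw g _ _ _ hb
      rw [hg] at this
      exact this.symm
    have h1 : dist (g • z) (g • m) = 1 := by rw [dist_smul, dist_comm, hz]
    have h2 := hb.dist_eq_abs hb'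
    have h3 : dist m (g • z) = dist m (g • m) - 1 := by
      unfold Q2T1.Btw at hb'
      linarith
    obtain ⟨k, hk⟩ := IsSimp.int m (g • m)
    have h4 : k ≠ 0 := fun e0 => e (dist_eq_zero.1 (by rw [hk, e0, Nat.cast_zero]))
    have h5 : k ≠ 1 := fun e1 => h g trivial m (by rw [hk, e1, Nat.cast_one]) hg
    have h6 : (2 : ℝ) ≤ k := by exact_mod_cast (show 2 ≤ k by omega)
    refine ih z ?_ ?_
    · rw [h2, h3, hz, hk, abs_le]
      rw [hk, Nat.cast_succ] at hm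
      constructor <;> linarith [Nat.cast_nonneg (α := ℝ) n]
    · have := hb.fix (g := g * g) (by rw [mul_smul, hg]) (by rw [mul_smul, hg])
      rwa [mul_smul] at this

theorem dich (T : Tr G) (h : NoInv T.V (⊤ : Subgroup G)) (g : G) : Ell T.V g ∨ Hyp T.V g := by
  rcases hyp_or_sq_fix g (Classical.arbitrary T.V) with h1 | ⟨m, hm⟩
  · exact Or.inr h1
  · obtain ⟨k, hk⟩ := IsSimp.int m (g • m)
    exact Or.inl (ell_of_sq T h g k m hk.le hm)

theorem ca (T : Tr G) {a h : G} (c : Commute a h) : CA T.V a h := fun w => by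
  rw [← mul_smul, c.eq, mul_smul]

/-- Squares centralise a normal, free and commutative subgroup. -/
theorem sq_comm {Φ : Subgroup G} (hn : Φ.Normal) [IsFreeGroup Φ]
    (hc : ∀ a ∈ Φ, ∀ b ∈ Φ, Commute a b) (a : G) {t : G} (ht : t ∈ Φ) : Commute (a ^ 2) t := by
  obtain ⟨c, hc⟩ := Q2T4A.cyclic_of_comm (⊤ : Subgroup Φ)
    fun x _ y _ => Subtype.ext (hc x x.2 y y.2)
  have key : ∀ s ∈ Φ, ∃ n : ℤ, (c : G) ^ n = s := fun s hs => by
    obtain ⟨n, hn⟩ : (⟨s, hs⟩ : Φ) ∈ Subgroup.zpowers c := hc ▸ Subgroup.mem_top _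
    exact ⟨n, by simpa using congrArg Subtype.val hn⟩
  obtain ⟨n, rfl⟩ := key t ht
  refine Commute.zpow_right ?_ n
  by_cases h1 : c = 1
  · rw [h1]; exact Commute.one_right _
  obtain ⟨i, hi⟩ := key _ (hn.conj_mem c c.2 a)
  obtain ⟨j, hj⟩ := key _ (hn.conj_mem c c.2 a⁻¹)
  have e1 : (c : G) ^ (i * j) = (c : G) ^ (1 : ℤ) := by
    rw [zpow_mul, hi, conj_zpow, hj]
    group
  have e2 : i * j = 1 := Q2T4A.zpow_inj h1 (Subtype.ext (by simpa using e1))
  have e3 : i * i = 1 := by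
    rcases Int.eq_one_or_neg_one_of_mul_eq_one e2 with e | e <;> rw [e] <;> rfl
  have e4 : a * (a * c * a⁻¹) * a⁻¹ = c := by
    conv_lhs => rw [← hi, ← conj_zpow, ← hi, ← zpow_mul, e3, zpow_one]
  show a ^ 2 * c = c * a ^ 2
  conv_rhs => rw [← e4]
  rw [sq]
  group

end RA2

open RA2 in
theorem rowA2 (hFF : InFF) (hAX : StmtAX) : StmtA2 := by
  intro G _ F Φ L
  obtain ⟨S, hN, hT, hE, h, hh⟩ := L.tree
  have nΦ := L.nΦ
  have fr : IsFreeGroup Φ := hFF Φ (S.res (Subgroup.inclusion L.le))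
    (fun g _ x => hN (Subgroup.inclusion L.le g) trivial x)
    fun g hg => Subgroup.inclusion_injective L.le
      ((hE (Subgroup.inclusion L.le g) g.2 hg).trans (map_one _).symm)
  have hp : ∀ g ∈ F, g ^ Φ.relIndex F ∈ Φ := fun g hg => Φ.pow_relIndex_mem hg
  obtain ⟨u, v, huv, a1, a2⟩ := hAX F S _ (hh.pow L.fi)
  have na : ∃ a ∈ Φ, ∃ b ∈ Φ, ¬ Commute a b := by
    by_contra hn
    have hc : ∀ a ∈ Φ, ∀ b ∈ Φ, Commute a b := fun a ha b hb => by
      by_contra k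
      exact hn ⟨a, ha, b, hb, k⟩
    obtain ⟨a, ha, b, hb, k⟩ := L.na
    have c : ∀ g : F, CA S.V (g ^ 2) (h ^ Φ.relIndex F) := fun g =>
      ca S (Subtype.ext (sq_comm nΦ hc g (hp h h.2)))
    obtain ⟨e1, e2⟩ := a1 _ _ (c ⟨a, ha⟩) (c ⟨b, hb⟩)
    have e := congrArg Subtype.val (hT _ trivial u v huv e1 e2)
    exact k (commutatorElement_eq_one_iff_commute.1 e)
  refine ⟨fr, na, fun z hz hc => ?_⟩
  obtain ⟨a, ha, b, hb, k⟩ := na
  have c : ∀ t : Φ, Commute (⟨_, hp z hz⟩ : Φ) t := fun t =>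
    Subtype.ext ((hc t t.2).pow_left _)
  have e : (⟨_, hp z hz⟩ : Φ) = 1 := Q2T4A.eq_one_of_comm
    (fun c : Commute (⟨a, ha⟩ : Φ) ⟨b, hb⟩ => k (c.map Φ.subtype)) (c _) (c _)
  have e' : z ^ Φ.relIndex F = 1 := congrArg Subtype.val e
  have fo : IsOfFinOrder (⟨z, hz⟩ : F) := isOfFinOrder_iff_pow_eq_one.2
    ⟨_, Nat.pos_of_ne_zero L.fi, Subtype.ext e'⟩
  obtain ⟨e1, e2⟩ := a2 ⟨z, hz⟩ (ca S (Subtype.ext (hc _ (hp h h.2))))
    (ell_of_isOfFinOrder (dich S hN _) fo)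
  exact congrArg Subtype.val (hT _ trivial u v huv e1 e2)

end Pool.Agent.MP_3ce0a0_al.Q2T11
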