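import Pool.Agent.MP_3ce0a0_al.Q2T11.Spec

/-! A tree with finite stabilisers for the quotient group. -/

set_option autoImplicit false

namespace Pool.Agent.MP_3ce0a0_al.Q2T11

open Q2T1 MulAction

theorem rowA3 (hTF : InTF) (hK : InKPS) : StmtA3 := by
  intro G _ F Φ h hfree ⟨a, ha, b, hb, hab⟩ hz
  haveI := h.nΦ
  let θ : G →* MulAut Φ := MulAut.conjNormal
  have hθ : ∀ z : G, θ z = 1 ↔ ∀ t ∈ Φ, Commute z t := fun z =>
    ⟨fun e t ht => by
      have := congrArg (fun f : MulAut Φ => ((f ⟨t, ht⟩ : Φ) : G)) e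
      exact mul_inv_eq_iff_eq_mul.1 this,
    fun e => MulEquiv.ext fun t => Subtype.ext (mul_inv_eq_iff_eq_mul.2 (e t t.2).eq)⟩
  have hval : ∀ v : Φ, θ v = MulAut.conj v := fun v => MulAut.conjNormal_val
  haveI : Group.FG F := (Group.fg_iff_subgroup_fg F).2 h.fg
  haveI : (Φ.subgroupOf F).FiniteIndex := ⟨h.fi⟩
  have hfg : Group.FG Φ := Group.fg_of_surjective
    (f := (Subgroup.subgroupOfEquivOfLe h.le).toMonoidHom)
    (Subgroup.subgroupOfEquivOfLe h.le).surjective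
  have hidx := hTF Φ θ.range hfree hfg (by
    rintro _ ⟨c, rfl⟩
    obtain ⟨m, hm, f, hf, e⟩ := h.tor c
    obtain ⟨p, hp, -, k⟩ := Subgroup.exists_pow_mem_of_relIndex_ne_zero h.fi hf
    have e1 := (hθ _).2 fun t ht => e t (h.le ht)
    rw [map_mul, map_inv, inv_mul_eq_one, map_pow] at e1
    exact ⟨m * p, Nat.mul_pos hm hp, ⟨f ^ p, k.1⟩, by rw [pow_mul, ← e1, ← map_pow, ← hval]⟩)
  have hle : (MulAut.conj : Φ →* MulAut Φ).range ≤ θ.range := by
    rintro _ ⟨v, rfl⟩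
    exact ⟨v, hval v⟩
  have hinj : Function.Injective (MulAut.conj : Φ →* MulAut Φ) :=
    (injective_iff_map_eq_one _).2 fun v e =>
      Subtype.ext (hz v (h.le v.2) ((hθ v).1 ((hval v).trans e)))
  have hn : (MulAut.conj : Φ →* MulAut Φ).range.Normal := ⟨by
    rintro _ ⟨x, rfl⟩ g
    exact ⟨g x, by ext y; simp⟩⟩
  let e : Φ ≃* (MulAut.conj : Φ →* MulAut Φ).range.subgroupOf θ.range :=
    (MonoidHom.ofInjective hinj).trans (Subgroup.subgroupOfEquivOfLe hle).symm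
  obtain ⟨Y, h1, h2⟩ := hK θ.range _ (hn.subgroupOf θ.range) ⟨hidx⟩ (IsFreeGroup.ofMulEquiv e)
    ((Group.fg_iff_subgroup_fg _).1 (Group.fg_of_surjective (f := e.toMonoidHom) e.surjective))
    ⟨_, (e ⟨a, ha⟩).2, _, (e ⟨b, hb⟩).2, fun k => hab (by
      have k1 : e (⟨a, ha⟩ * ⟨b, hb⟩) = e (⟨b, hb⟩ * ⟨a, ha⟩) := by
        rw [map_mul, map_mul]
        exact Subtype.ext k.eq
      exact congrArg Subtype.val (e.injective k1))⟩
  refine ⟨Y.res θ.rangeRestrict, fun g _ x => h1 (θ.rangeRestrict g) trivial x, fun y => ?_⟩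
  refine Set.Finite.of_injOn (f := θ.rangeRestrict)
    (t := (stabilizer θ.range (show Y.V from y) : Set θ.range)) (fun g hg => hg.2)
    (fun g hg g' hg' k => ?_) (Set.finite_coe_iff.1 (h2 y))
  have k1 : θ g = θ g' := congrArg Subtype.val k
  refine inv_mul_eq_one.1 (hz _ (mul_mem (inv_mem hg.1) hg'.1) ((hθ _).1 ?_))
  rw [map_mul, map_inv, k1, inv_mul_cancel]

end Pool.Agent.MP_3ce0a0_al.Q2T11
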