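import Pool.Agent.MP_3ce0a0_al.Q2T11.Spec
import Pool.Agent.MP_3ce0a0_al.Q2T1.Serre

/-! Collapse of the edges with non-trivial stabiliser. -/

set_option autoImplicit false

namespace Pool.Agent.MP_3ce0a0_al.Q2T11

open Q2T1 Q2T2 Filter MulAction

namespace RA4

variable {G X : Type} [Group G] [MetricSpace X] [IsSimp X] [MulAction G X] [IsIsometricSMul G X]

theorem one_of_te (h : TE X (⊤ : Subgroup G)) {g : G} {x y : X} (hxy : x ≠ y) (hx : g • x = x)
    (hy : g • y = y) : g = 1 := by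
  obtain ⟨z, h1, h2⟩ := IsSimp.geo x y hxy
  exact h g (Subgroup.mem_top g) x z h1 hx (h2.fix hx hy)

theorem ell_of_sq (h : NoInv X (⊤ : Subgroup G)) (g : G) (n : ℕ) :
    ∀ m : X, dist m (g • m) = n → g • g • m = m → Ell X g := by
  induction n using Nat.strong_induction_on with
  | _ n ih =>
    intro m hn hm
    by_cases e : g • m = m
    · exact ⟨m, e⟩
    obtain ⟨z, h1, h2⟩ := IsSimp.geo m (g • m) (Ne.symm e)
    have h3 : Q2T1.Btw m (g • z) (g • m) := by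
      have := (h2.smul g).symm
      rwa [hm] at this
    have h4 := h2.dist_eq_abs h3
    have h5 : dist (g • z) (g • m) = 1 := by rw [dist_smul, dist_comm, h1]
    have h6 : g • g • z = z := by
      rw [← mul_smul]
      exact h2.fix (by rw [mul_smul, hm]) (by rw [mul_smul, hm])
    obtain ⟨k, hk⟩ := IsSimp.int z (g • z)
    have h7 : n ≠ 1 := fun e => h g (Subgroup.mem_top g) m (by rw [hn, e, Nat.cast_one]) hm
    have h8 : n ≠ 0 := fun e' => e (by rw [e', Nat.cast_zero, dist_eq_zero] at hn; exact hn.symm)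
    have h9 : (2 : ℝ) ≤ n := by exact_mod_cast (by omega : 2 ≤ n)
    refine ih k ?_ z hk h6
    unfold Q2T1.Btw at h3
    have : (k : ℝ) < n := by
      rw [← hk, h4, abs_lt]
      constructor <;> linarith
    exact_mod_cast this

theorem ell_of_fin [Nonempty X] (h : NoInv X (⊤ : Subgroup G)) {g : G} (hg : IsOfFinOrder g) :
    Ell X g := by
  rcases trichotomy (X := X) g with h1 | h1 | ⟨m, -, hm⟩
  · exact h1
  · exact absurd hg h1.not_isOfFinOrder
  · obtain ⟨n, hn⟩ := IsSimp.int m (g • m)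
    exact ell_of_sq h g n m hn hm

end RA4

open RA4

theorem rowA4 (hC : InCOL) : StmtA4 := by
  intro G _ F Φ Y L hN hfin
  obtain ⟨S, sN, sT, -, h, hh⟩ := L.tree
  obtain ⟨Z, π, h1, h2, h3, h4, h5⟩ := hC G Y
    (fun x y => dist x y = 1 ∧ ∃ g ∈ F, g ≠ 1 ∧ g • x = x ∧ g • y = y) (fun _ _ h => h.1)
    (fun x y ⟨a, g, b, c, d, e⟩ => ⟨by rw [dist_comm, a], g, b, c, e, d⟩)
    fun k x y ⟨a, g, b, c, d, e⟩ => ⟨by rw [dist_smul, a], k * g * k⁻¹, L.nF.conj_mem g b k,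
      fun h => c (by rwa [mul_inv_eq_one, mul_eq_left] at h),
      by rw [mul_smul, inv_smul_smul, mul_smul, d], by rw [mul_smul, inv_smul_smul, mul_smul, e]⟩
  have hne : ∀ u v : Z.V, dist u v = 1 → u ≠ v := fun u v h e => by simp [e] at h
  refine ⟨Z, fun g _ z hz e => ?_, fun g hg u v huv hu hv => ?_, fun z => ?_⟩
  · obtain ⟨x, y, hxy, rfl, hy⟩ := h4 _ _ hz
    obtain ⟨e1, e2⟩ := h5 y x (g • x) (g • y) (by rw [dist_comm, hxy]) (by rw [dist_smul, hxy])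
      (by rw [hy]; exact (hne _ _ hz).symm) (by rw [h2, hy]) (by rw [h2, hy, e])
    exact hN g (Subgroup.mem_top g) x (by rw [← e1, hxy]) (by rw [← e1, ← e2])
  · obtain ⟨x, y, hxy, rfl, rfl⟩ := h4 _ _ huv
    obtain ⟨e1, e2⟩ := h5 x y (g • x) (g • y) hxy (by rw [dist_smul, hxy]) (hne _ _ huv)
      (by rw [h2, hu]) (by rw [h2, hv])
    by_contra hg1
    exact hne _ _ huv ((h3 x y).2 (.single ⟨hxy, g, hg, hg1, e1.symm, e2.symm⟩))
  have fo : ∀ (g : F) (y : Y.V), (g : G) • y = y → IsOfFinOrder g := fun g y hy => by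
    refine finite_powers.1 (((hfin y).preimage Subtype.val_injective.injOn).subset ?_)
    rintro _ ⟨n, rfl⟩
    exact ⟨(g ^ n).2, pow_smul_of_fix hy n⟩
  let R : Y.V → S.V → Prop := fun y s => ∃ g : F, g ≠ 1 ∧ (g : G) • y = y ∧ g • s = s
  have uq : ∀ y s s', R y s → R y s' → s = s' := fun y s s' ⟨g, a, b, c⟩ ⟨g', a', b', c'⟩ => by
    obtain ⟨x, e1, e2⟩ := ex_common_fix (X := S.V) ⟨s, c⟩ ⟨s', c'⟩ fun hy =>
      hy.not_isOfFinOrder (fo (g * g') y (by rw [Subgroup.coe_mul, mul_smul, b', b]))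
    have e3 : s = x := by_contra fun e => a (one_of_te sT e c e1)
    have e4 : s' = x := by_contra fun e => a' (one_of_te sT e c' e2)
    rw [e3, e4]
  have st : ∀ x y, (dist x y = 1 ∧ ∃ g ∈ F, g ≠ 1 ∧ g • x = x ∧ g • y = y) →
      ∃ s, R x s ∧ R y s := fun x y ⟨_, g, b, c, d, e⟩ => by
    obtain ⟨s, hs⟩ := ell_of_fin sN (fo ⟨g, b⟩ x d)
    have c' : (⟨g, b⟩ : F) ≠ 1 := fun h => c (congrArg Subtype.val h)
    exact ⟨s, ⟨_, c', d, hs⟩, _, c', e, hs⟩
  obtain ⟨y, rfl⟩ := h1 z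
  refine ⟨h, h.2, fun e => ?_⟩
  have p := (h3 y ((h : G) • y)).1 (by rw [h2, e])
  rcases p.cases_head with e1 | ⟨w, e1, -⟩
  · exact hh.not_isOfFinOrder (fo h y e1.symm)
  obtain ⟨s, hs, -⟩ := st _ _ e1
  have tr : ∀ x, Relation.ReflTransGen
      (fun x y => dist x y = 1 ∧ ∃ g ∈ F, g ≠ 1 ∧ g • x = x ∧ g • y = y) y x → R x s := by
    intro x hx
    induction hx with
    | refl => exact hs
    | tail _ hb ih =>
      obtain ⟨s', a, b⟩ := st _ _ hb
      rwa [uq _ _ _ ih a]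
  obtain ⟨g, a, b, c⟩ := hs
  refine hh.smul_ne s (uq _ _ _ ⟨h * g * h⁻¹,
    fun h => a (by rwa [mul_inv_eq_one, mul_eq_left] at h), ?_, ?_⟩ (tr _ p))
  · rw [Subgroup.coe_mul, Subgroup.coe_mul, Subgroup.coe_inv, mul_smul, inv_smul_smul, mul_smul, b]
  · rw [mul_smul, inv_smul_smul, mul_smul, c]

end Pool.Agent.MP_3ce0a0_al.Q2T11
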