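import Pool.Agent.MP_3ce0a0_al.Q2T11.Spec
import Pool.Agent.MP_3ce0a0_al.Q2T1.Isom

/-!
Row A5: the approximating trees.
-/

set_option autoImplicit false

namespace Pool.Agent.MP_3ce0a0_al.Q2T11

open Q2T1 Q2T2 Filter MulAction

namespace RA5

variable {G : Type} [Group G]

theorem sq_fix (T : Tr G) (h : NoInv T.V (⊤ : Subgroup G)) (g : G) (n : ℕ) :
    ∀ m : T.V, dist m (g • m) = n → g • g • m = m → Ell T.V g := by
  induction n using Nat.strong_induction_on with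
  | _ n ih =>
    intro m hd hm
    by_cases e : m = g • m
    · exact ⟨m, e.symm⟩
    obtain ⟨z, h1, h2⟩ := IsSimp.geo m (g • m) e
    have h3 : Q2T1.Btw m (g • z) (g • m) := by
      have h4 := (h2.smul g).symm
      rwa [hm] at h4
    have h4 : g • g • z = z := by
      rw [← mul_smul]
      exact h2.fix (by rwa [mul_smul]) (by rw [mul_smul, hm])
    have h5 : dist (g • z) (g • m) = 1 := by rw [dist_smul, dist_comm, h1]
    have h6 := h2.dist_eq_abs h3
    have h7 : dist m (g • z) = n - 1 := by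
      unfold Q2T1.Btw at h3
      linarith
    obtain ⟨k, hk⟩ := IsSimp.int z (g • z)
    refine ih k ?_ z hk h4
    have h8 : n ≠ 1 := fun e1 => h g (Subgroup.mem_top g) m (by rw [hd, e1, Nat.cast_one]) hm
    have h9 : n ≠ 0 := fun e0 => e (dist_eq_zero.1 (by rw [hd, e0, Nat.cast_zero]))
    have h10 : (2 : ℝ) ≤ n := by exact_mod_cast (by omega : 2 ≤ n)
    rw [h1, h7, hk, abs_of_nonpos (by linarith)] at h6
    have h11 : (k : ℝ) < n := by linarith
    exact_mod_cast h11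

theorem dich (T : Tr G) (h : NoInv T.V (⊤ : Subgroup G)) (g : G) : Ell T.V g ∨ Hyp T.V g := by
  rcases hyp_or_sq_fix g (Classical.arbitrary T.V) with h1 | ⟨m, hm⟩
  · exact Or.inr h1
  · obtain ⟨n, hn⟩ := IsSimp.int m (g • m)
    exact Or.inl (sq_fix T h g n m hn hm)

theorem te_one (T : Tr G) {U : Subgroup G} (h : TE T.V U) {g : G} (hg : g ∈ U) {x y : T.V}
    (hxy : x ≠ y) (hx : g • x = x) (hy : g • y = y) : g = 1 := by
  obtain ⟨z, h1, h2⟩ := IsSimp.geo x y hxy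
  exact h g hg x z h1 hx (h2.fix hx hy)

theorem nn_normal {k : ℕ} {F U : Subgroup G} {A : Set G} (P : Pre k F A) (hU : U.Normal) :
    (NN A U).Normal := by
  refine ⟨fun n hn g => ?_⟩
  induction hn using Subgroup.closure_induction with
  | mem a ha => exact Subgroup.subset_closure ⟨P.conj g a ha.1, hU.conj_mem a ha.2 g⟩
  | one => simp
  | mul a b _ _ ha hb =>
    rw [show g * (a * b) * g⁻¹ = g * a * g⁻¹ * (g * b * g⁻¹) by group]
    exact mul_mem ha hb
  | inv a _ ha =>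
    rw [show g * a⁻¹ * g⁻¹ = (g * a * g⁻¹)⁻¹ by group]
    exact inv_mem ha

theorem pow_mem {k : ℕ} {F : Subgroup G} {A : Set G} (P : Pre k F A) {g : G} (hg : g ∈ A)
    (n : ℕ) : g ^ n ∈ A := by
  obtain ⟨S, -, -, h⟩ := P.tree
  exact (h (⟨g, P.sub hg⟩ ^ n)).1 (((h ⟨g, P.sub hg⟩).2 hg).pow n)

end RA5

theorem rowA5 (hCY : StmtCY) (h1 : StmtA1) (h2 : StmtA2) (h3 : StmtA3) (h4 : StmtA4) :
    StmtA5 := by
  intro G _ k F A Φ P hS hH hn
  filter_upwards [h1 G k F A Φ P hS hH hn ((hCY G k F A P).2.1 hn).2] with j hj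
  have hΦ := hS.nrm j
  have hN := RA5.nn_normal P hΦ
  let q := QuotientGroup.mk' (NN A (Φ j))
  have hL := hj _ q (QuotientGroup.mk'_surjective _) (QuotientGroup.ker_mk' _)
  obtain ⟨a1, a2, a3⟩ := h2 _ _ _ hL
  obtain ⟨Y, b1, b2⟩ := h3 _ _ _ hL a1 a2 a3
  obtain ⟨Z, c1, c2, c3⟩ := h4 _ _ _ Y hL b1 b2
  have hle : NN A (Φ j) ≤ Φ j := (Subgroup.closure_le _).2 Set.inter_subset_right
  refine ⟨Z.res q, fun g hg y z hyz hy hz => ?_, fun y => ?_, fun g hg => ?_⟩
  · have e : q g = 1 := RA5.te_one Z c2 (Subgroup.mem_map_of_mem q hg) hyz hy hz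
    refine ⟨hle ((QuotientGroup.eq_one_iff g).1 e), fun w => ?_⟩
    have e' : q g • (show Z.V from w) = w := by rw [e, one_smul]
    exact e'
  · obtain ⟨_, ⟨g, hg, rfl⟩, hy⟩ := c3 y
    exact ⟨g, hg, hy⟩
  · have e : q g ^ (Φ j).relIndex F = 1 := by
      rw [← map_pow]
      exact (QuotientGroup.eq_one_iff _).2 (Subgroup.subset_closure
        ⟨RA5.pow_mem P hg _, (Φ j).pow_relIndex_mem (P.sub hg)⟩)
    have e' : Ell Z.V (q g) := ell_of_isOfFinOrder (RA5.dich Z c1 (q g))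
      (isOfFinOrder_iff_pow_eq_one.2 ⟨_, Nat.pos_of_ne_zero (hS.fi j), e⟩)
    exact e'

end Pool.Agent.MP_3ce0a0_al.Q2T11
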