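import Pool.Agent.MP_3ce0a0_al.Q2T11.Spec
import Pool.Agent.MP_3ce0a0_al.Q2T1.Serre

/-! Row AX: the centraliser of a hyperbolic element translates its axis. -/

set_option autoImplicit false

namespace Pool.Agent.MP_3ce0a0_al.Q2T11

open Q2T1

namespace RAX

variable {X : Type} [MetricSpace X] {G : Type} [Group G] [MulAction G X] [IsIsometricSMul G X]
  [IsTree X] {a b h : G}

/-- A coordinate on the axis. -/
theorem coord (hh : Hyp X h) : ∃ c : X → ℝ,
    (∀ p ∈ Ch X h, ∀ q ∈ Ch X h, dist p q = |c p - c q|) ∧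
      ∀ p ∈ Ch X h, c (h • p) = c p + tl X h := by
  obtain ⟨x, hx⟩ := Ch_nonempty (Or.inr hh)
  have key : ∀ p ∈ Ch X h, ∃ (n : ℤ) (r : ℝ), ∀ m ≤ n, dist (h ^ m • x) p = r - m * tl X h ∧
      ∀ k, n + 1 ≤ k → Q2T1.Btw (h ^ m • x) p (h ^ k • x) := by
    intro p hp
    obtain ⟨n, hn⟩ := hh.cover hx hp
    refine ⟨n, n * tl X h + dist (h ^ n • x) p, fun m hm => ?_⟩
    have h1 : Q2T1.Btw (h ^ m • x) (h ^ n • x) (h ^ (n + 1) • x) := btw_zpow hx hm (by omega)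
    have h2 := h1.trans_right' hn
    have h3 := h1.trans_right hn
    refine ⟨?_, fun k hk => h3.trans_left (btw_zpow hx (by omega) hk)⟩
    have hm' : (m : ℝ) ≤ n := by exact_mod_cast hm
    unfold Q2T1.Btw at h2
    rw [dist_zpow_zpow hx, abs_of_nonneg (sub_nonneg.2 hm')] at h2
    linarith
  choose! n r hr using key
  refine ⟨r, fun p hp q hq => ?_, fun p hp => ?_⟩
  · obtain ⟨a1, a2⟩ := hr p hp (min (n p) (n q)) (min_le_left _ _)
    obtain ⟨b1, b2⟩ := hr q hq (min (n p) (n q)) (min_le_right _ _)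
    rw [(a2 (max (n p) (n q) + 1) (by omega)).dist_eq_abs (b2 (max (n p) (n q) + 1) (by omega)),
      a1, b1, sub_sub_sub_cancel_right]
  · have a1 := (hr p hp (min (n p) (n (h • p) - 1)) (min_le_left _ _)).1
    have a2 := (hr (h • p) (smul_mem_Ch.2 hp) (1 + min (n p) (n (h • p) - 1)) (by omega)).1
    rw [zpow_one_add, mul_smul, dist_smul, a1] at a2
    push_cast at a2 ⊢
    linarith

omit [IsTree X] in
theorem ca_mem (ha : CA X a h) (p : X) : a • p ∈ Ch X h ↔ p ∈ Ch X h := by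
  rw [mem_Ch_iff_btw, mem_Ch_iff_btw, ← ha p, ← ha (h • p), btw_smul_iff]

omit [MetricSpace X] [IsIsometricSMul G X] [IsTree X] in
theorem ca_inv (ha : CA X a h) : CA X a⁻¹ h := fun w => by
  rw [inv_smul_eq_iff, ha, smul_inv_smul]

theorem main (hh : Hyp X h) (u : X) (hu : u ∈ Ch X h) :
    (∀ a b : G, CA X a h → CA X b h → (a * b * a⁻¹ * b⁻¹) • u = u) ∧
      ∀ a : G, CA X a h → Ell X a → a • u = u := by
  obtain ⟨c, h1, h2⟩ := coord hh
  have tr : ∀ a : G, CA X a h → ∀ p ∈ Ch X h, ∀ q ∈ Ch X h,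
      c (a • p) - c (a • q) = c p - c q := by
    intro a ha p hp q hq
    have hp' := (ca_mem ha p).2 hp
    have hq' := (ca_mem ha q).2 hq
    have e1 := h1 _ hp' _ hq'
    have e2 := h1 _ (smul_mem_Ch.2 hp') _ hq'
    rw [dist_smul, h1 p hp q hq] at e1
    rw [h2 _ hp', ← ha p, dist_smul, h1 _ (smul_mem_Ch.2 hp) q hq, h2 p hp] at e2
    have e3 := sq_eq_sq_iff_abs_eq_abs _ _ |>.2 e1
    have e4 := sq_eq_sq_iff_abs_eq_abs _ _ |>.2 e2
    refine mul_left_cancel₀ hh.tl_pos.ne' ?_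
    linarith
  have fin : ∀ p ∈ Ch X h, c p = c u → p = u := fun p hp e =>
    dist_eq_zero.1 (by rw [h1 p hp u hu, e, sub_self, abs_zero])
  refine ⟨fun a b ha hb => ?_, fun a ha ⟨x, hx⟩ => ?_⟩
  · have m1 := (ca_mem (ca_inv hb) u).2 hu
    have m2 := (ca_mem (ca_inv ha) _).2 m1
    have m3 := (ca_mem hb _).2 m2
    have e1 := tr a ha _ m3 _ m2
    have e2 := tr b hb _ m2 _ m1
    rw [smul_inv_smul] at e1 e2
    rw [mul_smul, mul_smul, mul_smul]
    exact fin _ ((ca_mem ha _).2 m3) (by linarith)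
  · obtain ⟨p, hp⟩ := gated_Ch (Or.inr hh) x
    have h3 := hp.smul_of_inv (ca_mem ha)
    rw [hx] at h3
    have e1 := tr a ha u hu p hp.1
    rw [h3.unique hp] at e1
    exact fin _ ((ca_mem ha u).2 hu) (by linarith)

end RAX

theorem rowAX : StmtAX := by
  intro G _ T h hh
  obtain ⟨u, hu⟩ := Ch_nonempty (Or.inr hh)
  obtain ⟨v, h1, h2⟩ := IsSimp.geo u (h • u) (hh.smul_ne u).symm
  have hv := conv_Ch h u hu _ (smul_mem_Ch.2 hu) v h2
  exact ⟨u, v, h1,
    fun a b ha hb => ⟨(RAX.main hh u hu).1 a b ha hb, (RAX.main hh v hv).1 a b ha hb⟩,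
    fun a ha he => ⟨(RAX.main hh u hu).2 a ha he, (RAX.main hh v hv).2 a ha he⟩⟩

end Pool.Agent.MP_3ce0a0_al.Q2T11
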