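import Pool.Agent.MP_3ce0a0_al.Q2T11.Spec
import Pool.Agent.MP_3ce0a0_al.Q2T3.S
import Pool.Agent.MP_3ce0a0_al.Q2T8.KPS

/-! The statements taken from the blocks on ranks and on virtually free groups. -/

set_option autoImplicit false

namespace Pool.Agent.MP_3ce0a0_al.Q2T11

open Q2T1 Q2T2 Filter MulAction

namespace RAdA

variable {G : Type} [Group G]

theorem te_sub {X : Type} [MetricSpace X] [MulAction G X] {U : Subgroup G} (h : TE X U) :
    Q2T3.TE U X := fun g x y h1 h2 h3 => Subtype.ext (h g.1 g.2 x y h1 h2 h3)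

/-- The stabiliser in a subgroup. -/
def stabEquiv {X : Type} [MulAction G X] (U : Subgroup G) (x : X) :
    stabilizer U x ≃* (U ⊓ stabilizer G x : Subgroup G) where
  toFun g := ⟨g.1.1, g.1.2, g.2⟩
  invFun g := ⟨⟨g.1, g.2.1⟩, g.2.2⟩
  left_inv _ := rfl
  right_inv _ := rfl
  map_mul' _ _ := rfl

end RAdA

theorem inFF : InFF := fun _ _ _ h1 h2 => Q2T3.s_ff (Q2T3.ni_top h1) fun g v h => h2 g ⟨v, h⟩

theorem inUP : InUP := by
  intro G _ T U x h1 h2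
  obtain ⟨φ, h3, h4⟩ := Q2T3.s_retr (Q2T3.ni_sub h1) (RAdA.te_sub h2) x
  refine ⟨U.subtype.comp ((stabilizer U x).subtype.comp φ), fun g => ⟨(φ g).1.2, (φ g).2⟩,
    fun g hg => congrArg (fun a : stabilizer U x => (a.1 : G)) (h3 ⟨g, hg⟩), fun g y h5 h6 => ?_⟩
  exact congrArg (fun a : stabilizer U x => (a.1 : G)) (h4 y (fun f => h6 f.1 f.2) g h5)

theorem inDROP : InDROP := by
  intro G _ T U k x ⟨e⟩ h1 h2 _ h3
  have : IsFreeGroup U := IsFreeGroup.ofMulEquiv e.symm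
  have hU : Q2T3.FinRk U := ((Q2T3.rk_free (Fin k)).1.of_surj e.symm.toMonoidHom
    e.symm.surjective).1
  obtain ⟨h4, -, h5⟩ := Q2T3.s_drop hU (Q2T3.ni_sub h1) (RAdA.te_sub h2) x
  obtain ⟨g, hg, h6⟩ := h3 x
  obtain ⟨e'⟩ := h4.equiv
  refine ⟨_, (h5 ⟨⟨g, hg⟩, h6⟩).trans_le ?_, ⟨(RAdA.stabEquiv U x).symm.trans e'⟩⟩
  exact ((Q2T3.rk_free (Fin k)).1.of_surj e.symm.toMonoidHom e.symm.surjective).2.trans_eq
    (Q2T3.rk_fin k)

theorem inKPS : InKPS := by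
  intro G _ U _ _ _ hfg _
  have : Group.FG U := (Group.fg_iff_subgroup_fg U).2 hfg
  obtain ⟨X, i1, i2, i3, i4, h⟩ := Q2T8.kps U
  exact ⟨@Tr.mk G _ X i1 i3 i4 i2 h.ne, h.noInv, h.fin⟩

theorem inTF : InTF := by
  intro V _ L _ _ h
  exact (Q2T8.tf_hom L.subtype fun k => by
    obtain ⟨m, hm, v, hv⟩ := h k.1 k.2
    exact ⟨m, hm, v, fun x => by
      rw [map_pow, Subgroup.subtype_apply, hv, MulAut.conj_apply]⟩).index_ne_zero

end Pool.Agent.MP_3ce0a0_al.Q2T11
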