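import Pool.Agent.MP_3ce0a0_al.Q2T11.Spec
import Pool.Agent.MP_3ce0a0_al.Q2T2.Col

/-! Adapters for the operations on trees. -/

set_option autoImplicit false

namespace Pool.Agent.MP_3ce0a0_al.Q2T11

open Q2T1 Q2T2 MulAction

theorem inX6 (h : SQuo) : InX6 := by
  intro G _ T N hN _ hle
  obtain ⟨Y, _, _, _, _, p, h1, h2, h3, h4, h5, h6⟩ := h G T.V N hN hle
  have : Nonempty Y := T.ne.map p
  exact ⟨⟨Y⟩, p, h1, h2, h3, h4, h5, h6⟩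

theorem inCOL (h : SCol) : InCOL := by
  intro G _ T C h1 h2 h3
  obtain ⟨Y, _, _, _, _, p, hc, he, hk⟩ := h G T.V C h2 h3
  have : Nonempty Y := T.ne.map p
  refine ⟨⟨Y⟩, p, hc.onto, he, fun x y => hc.fib_rtg.trans ⟨fun k => ?_, fun k => ?_⟩,
    fun u v k => hc.lift k, fun x y x' y' k1 k2 k3 k4 k5 => hc.inj k1 k2 k3 k4 k5⟩
  · exact Relation.ReflTransGen.mono (fun a b k => (hk a b k.1).1 k.2) _ _ k
  · exact Relation.ReflTransGen.mono (fun a b k => ⟨h1 a b k, (hk a b (h1 a b k)).2 k⟩) _ _ k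

theorem inBU (h : SBU) : InBU := by
  intro G _ T R S hN h1 h2 h3 h4
  obtain ⟨Z, _, _, _, _, p, j, hc, he, hj⟩ := h G T.V R (fun x => (x : T.V)) (fun x => (S x).V)
    (fun v => let ⟨x, hx, g, e⟩ := h1 v; ⟨⟨x, hx⟩, g, e⟩)
    (fun i i' g e => Subtype.ext (h2 _ i.2 _ i'.2 g e)) h4
  have : Nonempty Z := T.ne.map fun v => (hc.onto v).choose
  refine ⟨⟨Z⟩, p, j, hc.noInv_up he hN fun g _ z k1 k2 k3 => ?_, he,
    fun x v => ((hj x).2.2 _).2 ⟨v, rfl⟩, fun x v w => (hj x).1.dist_eq v w, fun x => (hj x).2.1,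
    fun x z e => ((hj x).2.2 z).1 e, fun z z' k1 k2 => hc.edge k1 k2,
    fun z z' w w' k1 k2 k3 k4 k5 => hc.inj k1 k2 k3 k4 k5⟩
  obtain ⟨x, hx, a, ha⟩ := h1 (p z)
  obtain ⟨y, hy⟩ := ((hj ⟨x, hx⟩).2.2 (a⁻¹ • z)).1 (by rw [he, ← ha, inv_smul_smul])
  have hb : a⁻¹ * g * a ∈ stabilizer G x := by
    rw [mem_stabilizer_iff, mul_smul, mul_smul, ha, ← he g, k2, ← ha, inv_smul_smul]
  have e1 : ∀ w, j ⟨x, hx⟩ ((⟨_, hb⟩ : stabilizer G x) • w) = (a⁻¹ * g * a) • j ⟨x, hx⟩ w :=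
    (hj ⟨x, hx⟩).2.1 ⟨_, hb⟩
  refine h3 ⟨x, hx⟩ ⟨_, hb⟩ trivial y ?_ ((hj ⟨x, hx⟩).1.injective ?_)
  · rw [← (hj ⟨x, hx⟩).1.dist_eq, e1, hy, mul_smul, smul_inv_smul, mul_smul, dist_smul, k1]
  · rw [e1, e1, hy]
    simp only [mul_smul, smul_inv_smul, k3]

end Pool.Agent.MP_3ce0a0_al.Q2T11
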