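import Pool.Agent.MP_3ce0a0_al.Q2T11.Spec
import Pool.Agent.MP_3ce0a0_al.Q2T4A.Alg

/-! The limit of the approximating trees is a free splitting. -/

set_option autoImplicit false

namespace Pool.Agent.MP_3ce0a0_al.Q2T11

open Q2T1 Q2T2 Filter MulAction

namespace RB

variable {G : Type} [Group G]

theorem pm {F K : Subgroup G} [IsFreeGroup F] (hK : K ≤ F) (hc : ∀ g ∈ K, ∀ h ∈ K, g * h = h * g)
    {b : G} (h1 : ∀ g ∈ K, b * g * b⁻¹ ∈ K) (h2 : ∀ g ∈ K, b⁻¹ * g * b ∈ K) {g : G} (hg : g ∈ K) :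
    b * g * b⁻¹ = g ∨ b * g * b⁻¹ = g⁻¹ := by
  obtain ⟨c, e⟩ := Q2T4A.cyclic_of_comm (K.subgroupOf F) fun x hx y hy =>
    Subtype.ext (hc _ hx _ hy)
  have key : ∀ g ∈ K, ∃ i : ℤ, (c : G) ^ i = g := fun g hg => by
    obtain ⟨i, hi⟩ : (⟨g, hK hg⟩ : F) ∈ Subgroup.zpowers c := e ▸ hg
    exact ⟨i, by simpa using congrArg Subtype.val hi⟩
  have hcK : (c : G) ∈ K := (e ▸ Subgroup.mem_zpowers c : c ∈ K.subgroupOf F)
  obtain ⟨n, rfl⟩ := key g hg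
  by_cases h0 : c = 1
  · simp [h0]
  obtain ⟨i, hi⟩ := key _ (h1 _ hcK)
  obtain ⟨j, hj⟩ := key _ (h2 _ hcK)
  have h3 : c ^ (i * j) = c ^ (1 : ℤ) := Subtype.ext (by
    rw [Subgroup.coe_zpow, Subgroup.coe_zpow, zpow_mul, hi, conj_zpow, hj]
    group)
  rw [← conj_zpow, ← hi]
  rcases Int.eq_one_or_neg_one_of_mul_eq_one (Q2T4A.zpow_inj h0 h3) with h | h
  · exact Or.inl (by rw [h, zpow_one])
  · exact Or.inr (by rw [h, zpow_neg_one, inv_zpow])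

theorem finOrb {F : Subgroup G} [IsFreeGroup F] (hn : F.Normal) (T : Tr G) (hc : Cocpt F T.V)
    {x y : T.V} (hd : dist x y = 1)
    (hv : ∀ g ∈ F, ∀ h ∈ F, g • x = x → g • y = y → h • x = x → h • y = y → g * h = h * g)
    {g : G} (hg : g ∈ F) (hx : g • x = x) (hy : g • y = y) : FinOrb F g := by
  obtain ⟨R, hR, h⟩ := hc.finE
  refine ⟨⋃ e ∈ R, {p | ∃ a : G, a • x = e.1 ∧ a • y = e.2 ∧ a * g * a⁻¹ = p},
    hR.biUnion fun e _ => ?_, fun b => ?_⟩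
  · by_cases h0 : ∃ a : G, a • x = e.1 ∧ a • y = e.2
    · obtain ⟨a0, h1, h2⟩ := h0
      refine ((Set.finite_singleton (a0 * g⁻¹ * a0⁻¹)).insert (a0 * g * a0⁻¹)).subset ?_
      rintro _ ⟨a, h3, h4, rfl⟩
      have nm : ∀ d : G, d ∈ stabilizer G x ⊓ stabilizer G y →
          ∀ g ∈ F ⊓ (stabilizer G x ⊓ stabilizer G y),
            d * g * d⁻¹ ∈ F ⊓ (stabilizer G x ⊓ stabilizer G y) := fun d hd g hg =>
        Subgroup.mem_inf.2 ⟨hn.conj_mem g hg.1 d,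
          mul_mem (mul_mem hd (Subgroup.mem_inf.1 hg).2) (inv_mem hd)⟩
      have hd : a0⁻¹ * a ∈ stabilizer G x ⊓ stabilizer G y :=
        ⟨by show _ • _ = _; rw [mul_smul, h3, ← h1, inv_smul_smul],
          by show _ • _ = _; rw [mul_smul, h4, ← h2, inv_smul_smul]⟩
      have e1 : a * g * a⁻¹ = a0 * (a0⁻¹ * a * g * (a0⁻¹ * a)⁻¹) * a0⁻¹ := by group
      rw [e1]
      rcases pm (F := F) (K := F ⊓ (stabilizer G x ⊓ stabilizer G y)) inf_le_left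
        (fun g hg h hh => hv g hg.1 h hh.1 hg.2.1 hg.2.2 hh.2.1 hh.2.2)
        (nm _ hd) (fun g hg => by simpa only [inv_inv] using nm _ (inv_mem hd) g hg)
        (g := g) ⟨hg, hx, hy⟩ with k | k
      · rw [k]; exact Or.inl rfl
      · rw [k]; exact Or.inr rfl
    · exact Set.finite_empty.subset fun p ⟨a, h1, h2, _⟩ => h0 ⟨a, h1, h2⟩
  · obtain ⟨f, hf, he⟩ := h (b • x) (b • y) (by rw [dist_smul, hd])
    exact ⟨f, hf, Set.mem_biUnion he ⟨f * b, mul_smul _ _ _, mul_smul _ _ _, by group⟩⟩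

end RB

theorem rowB (hL : InLS) : StmtB := by
  intro G _ k F A Φ P Q hk h
  obtain ⟨e⟩ := P.fr
  have : IsFreeGroup F := IsFreeGroup.ofMulEquiv e.symm
  obtain ⟨j0, Y0, h0⟩ := h.exists
  have ex : ∀ j, ∃ Y : Tr G, (∃ U, Appr Y F A U) ∧
      ((∃ Y : Tr G, Appr Y F A (Φ j)) → Appr Y F A (Φ j)) := fun j => by
    by_cases hj : ∃ Y : Tr G, Appr Y F A (Φ j)
    · obtain ⟨Y, hY⟩ := hj
      exact ⟨Y, ⟨_, hY⟩, fun _ => hY⟩
    · exact ⟨Y0, ⟨_, h0⟩, fun c => absurd c hj⟩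
  choose S s1 s2 using ex
  have el : ∀ g ∈ A, ∀ᶠ j in atTop, Ell (S j).V g := fun g hg =>
    Eventually.of_forall fun j => (s1 j).elim fun _ a => a.ell g hg
  obtain ⟨T, t1, t2, t3, t4, t5, t6⟩ := hL G F k S P.nrm P.fg hk P.fr
    (fun j g hg y z hyz hy hz => (s1 j).elim fun _ a => (a.edge g hg y z hyz hy hz).2)
    (fun g hg h1 => (h.and (Q.sep g h1)).mono fun j hj => by
      by_contra! hc
      obtain ⟨y⟩ := (S j).ne
      obtain ⟨g', -, h2⟩ := (s2 j hj.1).nofix y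
      exact hj.2 ((s2 j hj.1).edge g hg _ y h2 (hc _) (hc _)).1)
    (Eventually.of_forall fun j => (s1 j).elim fun _ a => a.nofix)
    fun g hg hf => el g (P.h2 g hg hf)
  refine ⟨T, t1, fun g hg x y hd hx hy => by_contra fun h1 => ?_, t2,
    fun g hg => (t6 g (P.sub hg) (el g hg)).1, t3, t4⟩
  have hA := P.h2 g hg (RB.finOrb P.nrm T t2 hd (fun g hg h hh => t5 g hg h hh x y hd) hg hx hy)
  rw [(t6 g hg (el g hA)).2 h1 x y hx hy, dist_self] at hd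
  exact zero_ne_one hd

end Pool.Agent.MP_3ce0a0_al.Q2T11
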