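import Pool.Agent.MP_3ce0a0_al.Q2T11.Spec

/-! Rows FG and D1: the hypotheses pass to the vertex groups. -/

set_option autoImplicit false

namespace Pool.Agent.MP_3ce0a0_al.Q2T11

open Q2T1 Q2T2 Filter MulAction

theorem rowFG : StmtFG := by
  intro G _ F L hF hG hs hi
  obtain ⟨S, hS, hSf⟩ := Group.fg_iff.1 hG
  obtain ⟨S', hS', hSf'⟩ := (Subgroup.fg_iff _).1 hi
  choose f hf hl using hs
  let L' := Subgroup.closure ((fun s => (f s)⁻¹ * s) '' S ∪ S')
  have h1 : F ⊓ L ≤ L' := hS' ▸ Subgroup.closure_mono Set.subset_union_right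
  have h2 : L' ≤ L := by
    refine (Subgroup.closure_le _).2 (Set.union_subset ?_ fun s hs => ?_)
    · rintro _ ⟨s, -, rfl⟩
      exact hl s
    · exact (hS' ▸ Subgroup.subset_closure hs : s ∈ F ⊓ L).2
  have h3 : ⊤ ≤ F ⊔ L' := by
    rw [← hS]
    refine (Subgroup.closure_le _).2 fun s hs => ?_
    have := Subgroup.mul_mem_sup (hf s)
      (Subgroup.subset_closure (Or.inl ⟨s, hs, rfl⟩) : (f s)⁻¹ * s ∈ L')
    rwa [mul_inv_cancel_left] at this
  refine (Subgroup.fg_iff _).2 ⟨_, le_antisymm h2 fun g hg => ?_, (hSf.image _).union hSf'⟩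
  obtain ⟨u, hu, l, hl', rfl⟩ := Subgroup.mem_sup_of_normal_left.1 (h3 (Subgroup.mem_top g))
  exact mul_mem (h1 ⟨hu, (mul_mem_cancel_right (h2 hl')).1 hg⟩) hl'

theorem rowD1 (hD : InDROP) : StmtD1 := by
  intro G _ k F A T x P S tr
  have hs : ∀ g : G, ∃ f ∈ F, f⁻¹ * g ∈ stabilizer G x := fun g => by
    obtain ⟨u, hu, h⟩ := (tr g).1 x
    exact ⟨u, hu, by rw [mem_stabilizer_iff, mul_smul, ← h, inv_smul_smul]⟩
  refine ⟨?_, fun Φ q => ⟨fun j => Subgroup.comap_mono (q.le j), fun j => (q.nrm j).comap _,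
    fun j => Subgroup.relIndex_comap_ne_zero _ (q.fi j),
    fun g hg => q.sep g fun h => hg (Subtype.ext h)⟩⟩
  obtain ⟨k', hk, ⟨e⟩⟩ := hD G T F k x P.fr S.noinv S.te S.coc S.nofix
  have hfg : (F ⊓ stabilizer G x).FG :=
    (Group.fg_iff_subgroup_fg _).1 (Group.fg_of_surjective (f := e.symm.toMonoidHom)
      e.symm.surjective)
  refine ⟨k', hk, P.nrm.comap _, (Group.fg_iff_subgroup_fg _).2 (rowFG G F _ P.nrm P.fg hs hfg),
    ⟨((MulEquiv.subgroupCongr (Subgroup.inf_subgroupOf_right F _).symm).trans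
      (Subgroup.subgroupOfEquivOfLe inf_le_right)).trans e⟩, ?_, fun g hg => P.sub hg,
    fun b g hg => P.conj b g hg, ?_⟩
  · obtain ⟨Y, h1, h2, h3⟩ := P.tree
    let φ : F.comap (stabilizer G x).subtype →* F := (stabilizer G x).subtype.subgroupComap F
    refine ⟨Y.res φ, fun g _ y => h1 (φ g) trivial y, fun g _ y z a b c => ?_, fun g => h3 (φ g)⟩
    have h4 : ((φ g : F) : G) = ((1 : F) : G) := congrArg Subtype.val (h2 (φ g) trivial y z a b c)
    exact Subtype.ext (Subtype.ext h4)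
  · rintro g hg ⟨Q, hQ, h⟩
    refine P.h2 g hg ⟨Subtype.val '' Q, hQ.image _, fun b => ?_⟩
    obtain ⟨u, hu, hl⟩ := hs b
    obtain ⟨f, hf, h1⟩ := h ⟨u⁻¹ * b, hl⟩
    refine ⟨f * u⁻¹, mul_mem hf (inv_mem hu), _, h1, ?_⟩
    simp only [Subgroup.coe_mul, Subgroup.coe_inv]
    group

end Pool.Agent.MP_3ce0a0_al.Q2T11
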