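import Pool.Agent.MP_3ce0a0_al.Q2T11.Spec

/-! Row D3: the torsion hypothesis passes to vertex groups. -/

set_option autoImplicit false

namespace Pool.Agent.MP_3ce0a0_al.Q2T11

open Q2T1 Q2T2 Filter MulAction

namespace RD3

variable {G : Type} [Group G] {k : ℕ} {F U : Subgroup G} {A : Set G} {n : G}

theorem nn_conj (P : Pre k F A) (hU : U.Normal) (g : G) (hn : n ∈ NN A U) :
    g * n * g⁻¹ ∈ NN A U := by
  have : NN A U ≤ (NN A U).comap (MulAut.conj g).toMonoidHom := (Subgroup.closure_le _).2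
    fun a ha => Subgroup.subset_closure ⟨P.conj g a ha.1, hU.conj_mem a ha.2 g⟩
  exact this hn

theorem nn_le (P : Pre k F A) : NN A U ≤ F := (Subgroup.closure_le _).2 fun _ ha => P.sub ha.1

end RD3

theorem rowD3 (h1 : StmtK1) (h2 : StmtK2) : StmtD3 := by
  intro G _ k F A Φ T x P hq h3 hs hn
  by_cases ha : ∃ a ∈ F, a ≠ 1 ∧ a • x = x
  · filter_upwards [h3, h2 G k F A Φ T x x P hq hs hn (by simp) ha] with j h3 h2 b
    obtain ⟨m, hm, f, hf, hc⟩ := h3 b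
    obtain ⟨n, hN, e, -⟩ := h2 _ hc
    have hb : (b : G) ^ m • x = x := (b ^ m).2
    have hx : (f * n) • x = x := by rw [mul_smul, e, mul_smul, hb, smul_inv_smul]
    refine ⟨m, hm, ⟨f * n, hx⟩, mul_mem hf (RD3.nn_le P hN), fun g hg =>
      h1 G k F A (Φ j) T x P (hq.nrm j) hs _ ?_⟩
    have := mul_mem (mul_mem (inv_mem hN) (hc g hg)) (RD3.nn_conj P (hq.nrm j) g hN)
    rwa [show n⁻¹ * (f⁻¹ * b ^ m * g * (f⁻¹ * b ^ m)⁻¹ * (g : G)⁻¹) * (g * n * (g : G)⁻¹) =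
      (f * n)⁻¹ * b ^ m * g * ((f * n)⁻¹ * b ^ m)⁻¹ * (g : G)⁻¹ by group] at this
  · refine Eventually.of_forall fun j b => ⟨1, one_pos, 1, one_mem _, fun g hg => ?_⟩
    obtain rfl : g = 1 := Subtype.ext (by_contra fun h => ha ⟨g, hg, h, g.2⟩)
    rw [mul_one, mul_inv_cancel, inv_one, mul_one]
    exact one_mem _

end Pool.Agent.MP_3ce0a0_al.Q2T11
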