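import Pool.Agent.MP_3ce0a0_al.Q2T11.Spec
import Pool.Agent.MP_3ce0a0_al.Q2T1.Isom

/-!
An element with a power that centralises the free group modulo many small subgroups is elliptic.
-/

set_option autoImplicit false

namespace Pool.Agent.MP_3ce0a0_al.Q2T11

open Q2T1 Q2T2 Filter MulAction

namespace RE1

variable {G : Type} [Group G]

theorem dich (T : Tr G) (h : NoInv T.V (⊤ : Subgroup G)) (g : G) : Ell T.V g ∨ Hyp T.V g := by
  rcases hyp_or_sq_fix g (Classical.arbitrary T.V) with h1 | ⟨m, hm⟩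
  · exact Or.inr h1
  left
  obtain ⟨n, hn⟩ := IsSimp.int m (g • m)
  induction n using Nat.strong_induction_on generalizing m with
  | _ n ih =>
    by_cases e : m = g • m
    · exact ⟨m, e.symm⟩
    obtain ⟨z, h1, h2⟩ := IsSimp.geo m (g • m) e
    have h3 : Btw m (g • z) (g • m) := by
      have := (h2.smul g).symm
      rwa [hm] at this
    have h4 : Btw m (g • g • z) (g • m) := by
      have := (h3.smul g).symm
      rwa [hm] at this
    have h5 : g • g • z = z := h4.eq_of_dist h2 (by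
      have := dist_smul g (g • m) (g • z)
      rwa [hm, dist_smul] at this)
    obtain ⟨k, hk⟩ := IsSimp.int z (g • z)
    refine ih k ?_ z h5 hk
    have h6 := h2.dist_eq_abs h3
    have h7 : dist m (g • z) + dist (g • z) (g • m) = dist m (g • m) := h3
    rw [dist_smul, dist_comm z m, h1, hn] at h7
    have n0 : n ≠ 0 := fun e0 => e (dist_eq_zero.1 (by rw [hn, e0, Nat.cast_zero]))
    have n1 : n ≠ 1 := fun e1 => h g (Subgroup.mem_top g) m (by rw [hn, e1, Nat.cast_one]) hm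
    have n2 : (2 : ℝ) ≤ n := by exact_mod_cast (by omega : 2 ≤ n)
    rw [hk, h1, abs_of_nonpos (by linarith)] at h6
    exact_mod_cast (by linarith : (k : ℝ) < n)

variable {T Y : Tr G} {N U F : Subgroup G} {π : T.V → Y.V} {A : Set G} {k : ℕ} {g : G}

theorem triv (q : Quo T N Y π) (hn : g ∈ N) (y : Y.V) : g • y = y := by
  obtain ⟨x, rfl⟩ := q.surj y
  rw [← q.equi]
  exact ((q.fib _ _).2 ⟨g, hn, rfl⟩).symm

theorem mem (q : Quo T N Y π) (h : TE T.V U) (hN : N ≤ U) (hg : g ∈ U) {u v : Y.V}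
    (d : dist u v = 1) (hu : g • u = u) (hv : g • v = v) : g ∈ N := by
  obtain ⟨x, rfl⟩ := q.surj u
  obtain ⟨y, h1, rfl⟩ := q.lift x v d
  obtain ⟨n, hn, h2, h3⟩ := q.uniq x y (g • x) (g • y) h1 (by rw [dist_smul, h1])
    (by rw [q.equi, hu]) (by rw [q.equi, hv])
  have := h (n⁻¹ * g) (mul_mem (inv_mem (hN hn)) hg) x y h1
    (by rw [mul_smul, ← h2, inv_smul_smul]) (by rw [mul_smul, ← h3, inv_smul_smul])
  rwa [← inv_mul_eq_one.1 this]

theorem normal (P : Pre k F A) (hU : U.Normal) : (NN A U).Normal :=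
  ⟨fun _ hn b => (Subgroup.closure_le ((NN A U).comap (MulAut.conj b).toMonoidHom)).2
    (fun a ha => Subgroup.subset_closure ⟨P.conj b a ha.1, hU.conj_mem a ha.2 b⟩) hn⟩

theorem hyp_quo (hPE : StmtPE) (h : TE T.V U) (hg : Hyp T.V g) : ∃ B : Set G, B.Finite ∧
    (1 : G) ∉ B ∧ ∀ (N : Subgroup G) (Y : Tr G) (π : T.V → Y.V), N ≤ U → Quo T N Y π →
      (∀ b ∈ B, b ∉ N) → Hyp Y.V g := by
  obtain ⟨x, h1, h2⟩ := hyp_iff_dist.1 hg
  obtain ⟨B, f, n, hB⟩ := hPE G T U h x (g • x)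
  obtain ⟨B', f', n', hB'⟩ := hPE G T U h x (g • g • x)
  refine ⟨B ∪ B', f.union f', fun e => e.elim n n', fun N Y π hN q hb => ?_⟩
  have a := hB N Y π hN q fun b e => hb b (Or.inl e)
  have a' := hB' N Y π hN q fun b e => hb b (Or.inr e)
  rw [q.equi] at a a'
  rw [q.equi] at a'
  refine hyp_iff_dist.2 ⟨π x, fun e => h1 ?_, by rw [a, a', h2]⟩
  rw [e, dist_self] at a
  exact (dist_eq_zero.1 a.symm).symm

end RE1

open RE1 in
theorem rowE1 (hX : InX6) (hPE : StmtPE) (hAX : StmtAX) (hCY : StmtCY) : StmtE1 := by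
  intro G _ k F A Φ S b P Q hS hC
  refine (dich S hS.noinv b).elim id fun hb => False.elim ?_
  obtain ⟨B, fin, n1, hB⟩ := hyp_quo hPE hS.te hb
  have key : ∀ᶠ j in atTop, (∀ a ∈ F, ∀ c ∈ F, a * c * a⁻¹ * c⁻¹ ∈ Φ j) ∧ ∀ g ∈ A, g ∈ Φ j := by
    filter_upwards [hC, (eventually_all_finite fin).2 fun g hg => Q.sep g fun e => n1 (e ▸ hg)]
      with j hj hB'
    obtain ⟨m, hm, hc⟩ := hj
    have l1 : NN A (Φ j) ≤ Φ j := (Subgroup.closure_le _).2 Set.inter_subset_right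
    have l2 : NN A (Φ j) ≤ F := l1.trans (Q.le j)
    obtain ⟨Y, π, q⟩ := hX G S (NN A (Φ j)) (normal P (Q.nrm j)) hS.noinv
      (Subgroup.closure_mono fun g hg =>
        ⟨Subgroup.subset_closure hg, (hS.ell g (P.sub hg.1)).2 hg.1⟩)
    obtain ⟨u, v, d, h1, h2⟩ := hAX G Y (b ^ m)
      ((hB _ Y π l2 q fun g hg e => hB' g hg (l1 e)).pow hm.ne')
    have ca : ∀ g ∈ F, CA Y.V g (b ^ m) := fun g hg w => by
      have := triv q (hc g hg) (g • b ^ m • w)
      rw [mul_smul, inv_smul_smul, mul_smul, inv_smul_smul, mul_smul] at this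
      exact this.symm
    refine ⟨fun a ha c hc' => ?_, fun g hg => ?_⟩
    · obtain ⟨e1, e2⟩ := h1 a c (ca a ha) (ca c hc')
      exact l1 (mem q hS.te l2
        (mul_mem (mul_mem (mul_mem ha hc') (inv_mem ha)) (inv_mem hc')) d e1 e2)
    · obtain ⟨x, hx⟩ := (hS.ell g (P.sub hg)).2 hg
      obtain ⟨e1, e2⟩ := h2 g (ca g (P.sub hg)) ⟨π x, by rw [← q.equi, hx]⟩
      exact l1 (mem q hS.te l2 (P.sub hg) d e1 e2)
  have one : ∀ g : G, (∀ᶠ j in atTop, g ∈ Φ j) → g = 1 := fun g hg => by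
    by_contra e
    obtain ⟨j, h1, h2⟩ := (hg.and (Q.sep g e)).exists
    exact h2 h1
  have hA := (hCY G k F A P).1 fun a ha c hc' => by
    have := one _ (key.mono fun j h => h.1 a ha c hc')
    rwa [mul_inv_eq_one, mul_inv_eq_iff_eq_mul] at this
  obtain ⟨R, hR, h1⟩ := hS.coc.finV
  have : Finite S.V := Set.finite_univ_iff.1 (hR.subset fun x _ => by
    obtain ⟨g, hg, h2⟩ := h1 x
    rwa [one g (key.mono fun j h => h.2 g (hA hg)), one_smul] at h2)
  obtain ⟨i, j, h2, h3⟩ := Finite.exists_ne_map_eq_of_infinite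
    fun i : ℤ => b ^ i • Classical.arbitrary S.V
  refine (hb.zpow (sub_ne_zero.2 h2)).smul_ne (b ^ j • Classical.arbitrary S.V) ?_
  rw [← mul_smul, ← zpow_add, sub_add_cancel]
  exact h3

end Pool.Agent.MP_3ce0a0_al.Q2T11
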