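import Pool.Agent.MP_3ce0a0_al.Q2T11.Spec
import Pool.Agent.MP_3ce0a0_al.Q2T1.Serre

/-! Row E2: the edge groups are elliptic in the trees of the vertex groups. -/

set_option autoImplicit false

namespace Pool.Agent.MP_3ce0a0_al.Q2T11

open Q2T1 Q2T2 Filter MulAction

namespace RE2

variable {G : Type} [Group G] {k : ℕ} {F : Subgroup G} {A : Set G}

theorem le_F (P : Pre k F A) (U : Subgroup G) : NN A U ≤ F :=
  (Subgroup.closure_le _).2 fun _ hg => P.sub hg.1

theorem conj_mem (P : Pre k F A) {U : Subgroup G} (hU : U.Normal) {n : G} (hn : n ∈ NN A U)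
    (g : G) : g * n * g⁻¹ ∈ NN A U := by
  have h1 : NN A U ≤ (NN A U).comap (MulAut.conj g).toMonoidHom :=
    (Subgroup.closure_le _).2 fun a ha =>
      Subgroup.subset_closure ⟨P.conj g a ha.1, hU.conj_mem a ha.2 g⟩
  exact h1 hn

end RE2

theorem rowE2 (hK1 : StmtK1) (hK2 : StmtK2) (hD1 : StmtD1) (hE1 : StmtE1) (hFG : StmtFG) :
    StmtE2 := by
  intro G _ k F A Φ T x y S P hΦ h3 hs hn ht hxy hS
  obtain ⟨⟨k', -, P'⟩, hΦ'⟩ := hD1 G k F A T x P hs ht
  have h1 : (stabilizer G x ⊓ stabilizer G y).FG := by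
    refine hFG G F _ P.nrm P.fg (fun g => ?_) ?_
    · obtain ⟨u, hu, h1, h2⟩ := (ht g).2 x y hxy
      refine ⟨u, hu, ?_, ?_⟩
      · change (u⁻¹ * g) • x = x
        rw [mul_smul, ← h1, inv_smul_smul]
      · change (u⁻¹ * g) • y = y
        rw [mul_smul, ← h2, inv_smul_smul]
    · have h2 : F ⊓ (stabilizer G x ⊓ stabilizer G y) = ⊥ :=
        (Subgroup.eq_bot_iff_forall _).2 fun g hg => hs.te g hg.1 x y hxy hg.2.1 hg.2.2
      rw [h2]
      exact ⟨∅, by simp⟩
  have h2 : ((stabilizer G x ⊓ stabilizer G y).subgroupOf (stabilizer G x)).FG := by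
    have := (Group.fg_iff_subgroup_fg _).2 h1
    exact (Group.fg_iff_subgroup_fg _).1 (Group.fg_of_surjective
      (f := (Subgroup.subgroupOfEquivOfLe (inf_le_left : _ ⊓ stabilizer G y ≤ _)).symm.toMonoidHom)
      (MulEquiv.surjective _))
  obtain ⟨p, hp⟩ := serre (X := S.V) h2 fun b hb => by
    refine hE1 _ k' _ _ _ S b P' (hΦ' Φ hΦ) hS ?_
    by_cases ha : ∃ a ∈ F, a ≠ 1 ∧ a • x = x
    · filter_upwards [hK2 G k F A Φ T x y P hΦ hs hn hxy.le ha, h3] with j h4 h5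
      obtain ⟨m, hm, f, hf, hc⟩ := h5 b
      obtain ⟨n, hN, e1, e2⟩ := h4 _ hc
      have e3 : (b : G) ^ m • x = x := (stabilizer G x).pow_mem b.2 m
      have e4 : (b : G) ^ m • y = y := (stabilizer G y).pow_mem hb.2 m
      rw [mul_smul, e3] at e1
      rw [mul_smul, e4] at e2
      have e5 : f * n = 1 := hs.te _ (F.mul_mem hf (RE2.le_F P _ hN)) x y hxy
        (by rw [mul_smul, e1, smul_inv_smul]) (by rw [mul_smul, e2, smul_inv_smul])
      have e6 : f⁻¹ = n := inv_eq_of_mul_eq_one_right e5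
      refine ⟨m, hm, fun g hg => hK1 G k F A (Φ j) T x P (hΦ.nrm j) hs _ ?_⟩
      have e7 := hc g hg
      rw [e6] at e7
      have e8 := (NN A (Φ j)).mul_mem ((NN A (Φ j)).mul_mem ((NN A (Φ j)).inv_mem hN) e7)
        (RE2.conj_mem P (hΦ.nrm j) hN g)
      have e9 : ((b ^ m * g * (b ^ m)⁻¹ * g⁻¹ : stabilizer G x) : G) =
          n⁻¹ * (n * (b : G) ^ m * g * (n * (b : G) ^ m)⁻¹ * (g : G)⁻¹) * (g * n * (g : G)⁻¹) := by
        push_cast
        group
      rw [e9]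
      exact e8
    · refine Eventually.of_forall fun j => ⟨1, one_pos, fun g hg => ?_⟩
      have e1 : g = 1 := by
        by_contra e
        exact ha ⟨g, hg, fun e' => e (Subtype.ext e'), g.2⟩
      rw [e1, mul_one, inv_one, mul_one, mul_inv_cancel]
      exact Subgroup.one_mem _
  exact ⟨p, fun b hb => hp b ⟨b.2, hb⟩⟩

end Pool.Agent.MP_3ce0a0_al.Q2T11
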