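import Pool.Agent.MP_3ce0a0_al.Q2T11.Spec

/-!
The blow-up of a free splitting along good trees of the vertex groups is good.
-/

set_option autoImplicit false

namespace Pool.Agent.MP_3ce0a0_al.Q2T11

open Q2T1 Q2T2 Filter MulAction

theorem rowF (hBU : InBU) : StmtF := by
  intro G _ k F A T R S P hT hN hR hcov huniq hG hp
  obtain ⟨Z, π, ι, zN, hπ, hπι, hd, hι, hs, hh, hu⟩ := hBU G T R S hN
    (fun y => by
      obtain ⟨x, hx, g, -, e⟩ := hcov y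
      exact ⟨x, hx, g, e⟩) huniq (fun x => (hG x).noinv) hp
  have hF := P.nrm
  have : Finite R := hR
  have inj : ∀ (x : R) v w, ι x v = ι x w → v = w := fun x v w e => by
    rw [← dist_eq_zero, ← hd, e, dist_self]
  have key : ∀ z : Z.V, ∃ f ∈ F, ∃ x : R, ∃ v, ι x v = f⁻¹ • z := by
    intro z
    obtain ⟨x, hx, f, hf, e⟩ := hcov (π z)
    obtain ⟨v, hv⟩ := hs ⟨x, hx⟩ (f⁻¹ • z) (by rw [hπ, ← e, inv_smul_smul])
    exact ⟨f, hf, ⟨x, hx⟩, v, hv⟩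
  have key2 : ∀ (z z' : Z.V) (f : G) (x : R) v, π z = π z' → ι x v = f⁻¹ • z →
      ∃ w, ι x w = f⁻¹ • z' := fun z z' f x v e hv =>
    hs x _ (by rw [hπ, ← e, ← hπ, ← hv, hπι])
  have stab : ∀ (g f : G) (z : Z.V) (x : R) v, g • z = z → ι x v = f⁻¹ • z →
      f⁻¹ * g * f ∈ stabilizer G (x : T.V) := fun g f z x v e hv => by
    rw [mem_stabilizer_iff, ← hπι x v, ← hπ, hv, mul_smul, mul_smul, smul_inv_smul, e]
  have fix : ∀ (g f : G) (z : Z.V) (x : R) v (hb : f⁻¹ * g * f ∈ stabilizer G (x : T.V)),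
      g • z = z → ι x v = f⁻¹ • z → (⟨_, hb⟩ : stabilizer G (x : T.V)) • v = v :=
    fun g f z x v hb e hv => inj x _ _ (by
      rw [hι, hv]
      show (f⁻¹ * g * f) • f⁻¹ • z = _
      rw [mul_smul, mul_smul, smul_inv_smul, e])
  have cj : ∀ g ∈ F, ∀ f : G, f⁻¹ * g * f ∈ F := fun g hg f => by
    simpa using hF.conj_mem g hg f⁻¹
  refine ⟨Z, zN, fun g hg z z' h1 e e' => ?_, ⟨?_, ?_⟩, fun g hg => ⟨?_, fun ha => ?_⟩⟩
  · by_cases hc : π z = π z'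
    · obtain ⟨f, -, x, v, hv⟩ := key z
      obtain ⟨w, hw⟩ := key2 z z' f x v hc hv
      have hb := stab g f z x v e hv
      have h2 := (hG x).te ⟨_, hb⟩ (cj g hg f) v w (by rw [← hd, hv, hw, dist_smul, h1])
        (fix g f z x v hb e hv) (fix g f z' x w hb e' hw)
      have h3 : f⁻¹ * g * f = 1 := congrArg Subtype.val h2
      have h4 : g = f * (f⁻¹ * g * f) * f⁻¹ := by group
      rw [h4, h3]; group
    · exact hT.te g hg _ _ (hh z z' h1 hc) (by rw [← hπ, e]) (by rw [← hπ, e'])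
  · choose RV hRV hV using fun x : R => (hG x).coc.finV
    refine ⟨⋃ x : R, ι x '' RV x, Set.finite_iUnion fun x => (hRV x).image _, fun z => ?_⟩
    obtain ⟨f, hf, x, v, hv⟩ := key z
    obtain ⟨b, hb, hm⟩ := hV x v
    refine ⟨b * f⁻¹, F.mul_mem hb (F.inv_mem hf), Set.mem_iUnion.2 ⟨x, _, hm, ?_⟩⟩
    rw [hι, hv, mul_smul]
  · choose RE hRE hE using fun x : R => (hG x).coc.finE
    obtain ⟨RT, hRT, hET⟩ := hT.coc.finE
    refine ⟨(⋃ x : R, Prod.map (ι x) (ι x) '' RE x) ∪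
      {p | dist p.1 p.2 = 1 ∧ π p.1 ≠ π p.2 ∧ (π p.1, π p.2) ∈ RT},
      (Set.finite_iUnion fun x => (hRE x).image _).union ?_, fun z z' h1 => ?_⟩
    · refine Set.Finite.of_injOn (f := fun p : Z.V × Z.V => (π p.1, π p.2)) (t := RT)
        (fun p hp => hp.2.2) (fun p hp q hq e => ?_) hRT
      obtain ⟨e1, e2⟩ := hu p.1 p.2 q.1 q.2 hp.1 hq.1 hp.2.1 (congrArg Prod.fst e)
        (congrArg Prod.snd e)
      exact Prod.ext e1 e2
    · by_cases hc : π z = π z'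
      · obtain ⟨f, hf, x, v, hv⟩ := key z
        obtain ⟨w, hw⟩ := key2 z z' f x v hc hv
        obtain ⟨b, hb, hm⟩ := hE x v w (by rw [← hd, hv, hw, dist_smul, h1])
        refine ⟨b * f⁻¹, F.mul_mem hb (F.inv_mem hf),
          Or.inl (Set.mem_iUnion.2 ⟨x, _, hm, ?_⟩)⟩
        rw [Prod.map_apply, hι, hι, hv, hw, mul_smul, mul_smul]
      · obtain ⟨g, hg, hm⟩ := hET _ _ (hh z z' h1 hc)
        refine ⟨g, hg, Or.inr ⟨by rw [dist_smul, h1], ?_, by rwa [hπ, hπ]⟩⟩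
        rw [hπ, hπ]
        exact fun e => hc (smul_left_cancel g e)
  · rintro ⟨z, e⟩
    obtain ⟨f, -, x, v, hv⟩ := key z
    have hb := stab g f z x v e hv
    have h2 : f⁻¹ * g * f ∈ A := ((hG x).ell ⟨_, hb⟩ (cj g hg f)).1 ⟨v, fix g f z x v hb e hv⟩
    have h3 := P.conj f _ h2
    have h4 : f * (f⁻¹ * g * f) * f⁻¹ = g := by group
    rwa [h4] at h3
  · obtain ⟨y, hy⟩ := hT.ell g ha
    obtain ⟨x, hx, f, -, e⟩ := hcov y
    have hb : f⁻¹ * g * f ∈ stabilizer G ((⟨x, hx⟩ : R) : T.V) := by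
      rw [mem_stabilizer_iff, mul_smul, mul_smul, e, hy, ← e, inv_smul_smul]
    have h2 : f⁻¹ * g * f ∈ A := by simpa using P.conj f⁻¹ g ha
    obtain ⟨v, hv⟩ := ((hG ⟨x, hx⟩).ell ⟨_, hb⟩ (cj g hg f)).2 h2
    refine ⟨f • ι ⟨x, hx⟩ v, ?_⟩
    have h3 := hι ⟨x, hx⟩ ⟨_, hb⟩ v
    rw [hv] at h3
    have h4 : g • f • ι ⟨x, hx⟩ v = f • (f⁻¹ * g * f) • ι ⟨x, hx⟩ v := by
      rw [mul_smul, mul_smul, smul_inv_smul]
    rw [h4]
    exact congrArg (f • ·) h3.symm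

end Pool.Agent.MP_3ce0a0_al.Q2T11
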