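import Pool.Agent.MP_3ce0a0_al.Q2T11.Spec
import Pool.Agent.MP_3ce0a0_al.Q2T2.RMin

/-!
Row FIN: passage to the minimal subtree and to a subgroup that acts trivially on the quotient.
-/

set_option autoImplicit false

namespace Pool.Agent.MP_3ce0a0_al.Q2T11

open Q2T1 Q2T2 Filter MulAction

namespace RFIN

theorem simp_unit : IsSimp Unit :=
  { four := fun _ _ _ _ => by simp
    ex_med := fun x _ _ => ⟨x, btw_left x x, btw_left x x, btw_left x x⟩
    int := fun _ _ => ⟨0, by simp⟩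
    geo := fun x y h => absurd (Subsingleton.elim x y) h }

/-- The tree with one vertex. -/
def pt (G : Type) [Group G] : Tr G :=
  { V := Unit
    iso := ⟨fun _ => Isometry.of_dist_eq fun _ _ => rfl⟩
    simp := simp_unit }

theorem pt_eq {G : Type} [Group G] (x y : (pt G).V) : x = y := rfl

theorem pt_dist {G : Type} [Group G] (x y : (pt G).V) : dist x y ≠ 1 := by
  rw [pt_eq x y, dist_self]
  exact zero_ne_one

variable {G : Type} [Group G]

/-- The minimal subtree of a good tree is good. -/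
theorem mini {F : Subgroup G} {A : Set G} (T : Tr G) (hT : Good T F A) (hn : F.Normal)
    (hf : F.FG) (hA : ¬ (F : Set G) ⊆ A) :
    ∃ Y : Tr G, Good Y F A ∧ ∀ x y z : Y.V, y ≠ x → ∃ g ∈ F, g • z ∈ dir x y := by
  obtain ⟨g, hg, hgA⟩ := Set.not_subset.1 hA
  obtain ⟨Y, _, _, _, _, j, _, hj, he, -, -, hc, hd, hfix⟩ := sMin G T.V F hn hf
    (fun u _ => hT.noinv u (Subgroup.mem_top u))
    (fun x => ⟨g, hg, fun e => hgA ((hT.ell g hg).1 ⟨x, e⟩)⟩) T.ne
  refine ⟨{ V := Y }, ⟨fun u hu x h1 h2 => ?_, fun u hu x y h1 h2 h3 => ?_, hc, fun u hu => ?_⟩,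
    hd⟩
  · refine hT.noinv u hu (j x) ?_ ?_
    · rw [← he, hj.dist_eq]
      exact h1
    · rw [← he, ← he]
      exact congrArg j h2
  · refine hT.te u hu (j x) (j y) ?_ ?_ ?_
    · rw [hj.dist_eq]
      exact h1
    · rw [← he]
      exact congrArg j h2
    · rw [← he]
      exact congrArg j h3
  · rw [← hT.ell u hu]
    constructor
    · rintro ⟨x, hx⟩
      exact ⟨j x, by rw [← he]; exact congrArg j hx⟩
    · rintro ⟨x, hx⟩
      obtain ⟨y, hy⟩ := hfix (Subgroup.zpowers u) ⟨x, fun h hh =>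
        (Subgroup.zpowers_le (H := stabilizer G x)).2 hx hh⟩
      exact ⟨y, hy u (Subgroup.mem_zpowers u)⟩

end RFIN

open RFIN in
theorem rowFIN (hC : StmtC) (hTR : StmtTR) (hRES : StmtRES) : StmtFIN := by
  intro G _ k F A hP hO
  by_cases hA : (F : Set G) ⊆ A
  · refine ⟨⊤, inferInstance, le_top, pt _, ⟨fun g _ x h => absurd h (pt_dist _ _),
      fun g _ x y h => absurd h (pt_dist _ _), ⟨⟨Set.univ, ?_, fun x => ⟨1, one_mem _, trivial⟩⟩,
        ⟨∅, Set.finite_empty, fun x y h => absurd h (pt_dist _ _)⟩⟩,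
      fun g hg => ⟨fun _ => hA hg, fun _ => ⟨(), pt_eq _ _⟩⟩⟩,
      fun a => ⟨fun x => ⟨1, one_mem _, pt_eq _ _⟩, fun x y h => absurd h (pt_dist _ _)⟩,
      fun x y z h => absurd (pt_eq y x) h⟩
    exact Set.Subsingleton.finite fun x _ y _ => pt_eq x y
  obtain ⟨E₀, hfi, hF, T₀, hT₀⟩ := hO
  have hP₀ := (hRES G E₀ E₀.subtype k F A E₀.subtype_injective
    (by rw [Subgroup.range_subtype]; exact hfi) (by rw [Subgroup.range_subtype]; exact hF) hP).1
  have hfg : (F.comap E₀.subtype).FG := by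
    obtain ⟨e⟩ := hP₀.fr
    exact (Group.fg_iff_subgroup_fg _).1
      (Group.fg_of_surjective (f := e.symm.toMonoidHom) e.symm.surjective)
  obtain ⟨Y, hY, hd⟩ := mini T₀ hT₀ hP₀.nrm hfg fun h => hA fun g hg => @h ⟨g, hF hg⟩ hg
  obtain ⟨E₁, hfi₁, hF₁, htr, -⟩ := hC E₀ Y _ hP₀.nrm hY.coc
    fun u _ => hY.noinv u (Subgroup.mem_top u)
  have hle : E₁.map E₀.subtype ≤ E₀ := Subgroup.map_subtype_le E₁
  have hFE : F ≤ E₁.map E₀.subtype := fun g hg => ⟨⟨g, hF hg⟩, hF₁ hg, rfl⟩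
  have hmem : ∀ a : E₁.map E₀.subtype, Subgroup.inclusion hle a ∈ E₁ := by
    rintro ⟨_, a, ha, rfl⟩
    exact ha
  refine ⟨E₁.map E₀.subtype, ⟨?_⟩, hFE, Y.res (Subgroup.inclusion hle),
    (hTR E₀ _ (Subgroup.inclusion hle) _ _ Y (Subgroup.inclusion_injective hle)
      fun g hg => ⟨⟨g, hFE hg⟩, rfl⟩).1 hY, fun a => ⟨fun x => ?_, fun x y h => ?_⟩,
    fun x y z h => ?_⟩
  · rw [Subgroup.index_map_of_injective _ E₀.subtype_injective, Subgroup.range_subtype]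
    exact mul_ne_zero hfi₁.index_ne_zero hfi.index_ne_zero
  · obtain ⟨u, hu, e⟩ := (htr ⟨_, hmem a⟩).1 x
    exact ⟨⟨u.1.1, hFE hu⟩, hu, e⟩
  · obtain ⟨u, hu, e⟩ := (htr ⟨_, hmem a⟩).2 x y h
    exact ⟨⟨u.1.1, hFE hu⟩, hu, e⟩
  · obtain ⟨u, hu, e⟩ := hd x y z h
    exact ⟨⟨u.1, hFE hu⟩, hu, e⟩

end Pool.Agent.MP_3ce0a0_al.Q2T11
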