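import Pool.Agent.MP_3ce0a0_al.Q2T11.Spec
import Pool.Agent.MP_3ce0a0_al.Q2T3.C

/-! Row H: a separating sequence of normal subgroups of finite index. -/

set_option autoImplicit false

namespace Pool.Agent.MP_3ce0a0_al.Q2T11

open Q2T1 Q2T2 Filter MulAction

theorem rowH : StmtH := by
  intro G _ k F hF ⟨e⟩
  refine ⟨fun j => (⨅ f : F →* Equiv.Perm (Fin j), f.ker).map F.subtype, fun j => ?_, fun j => ?_,
    fun j => ?_, fun g hg => ?_⟩
  · exact Subgroup.map_subtype_le _
  · refine ⟨?_⟩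
    rintro _ ⟨n, hn, rfl⟩ b
    refine ⟨MulAut.conjNormal b n, ?_, by simp⟩
    simp only [SetLike.mem_coe, Subgroup.mem_iInf, MonoidHom.mem_ker] at hn ⊢
    exact fun f => hn (f.comp (MulAut.conjNormal (H := F) b).toMonoidHom)
  · have : Finite (F →* Equiv.Perm (Fin j)) :=
      Finite.of_equiv _ (FreeGroup.lift.trans (e.symm.monoidHomCongrLeftEquiv (N := Equiv.Perm (Fin j))))
    have h : (⨅ f : F →* Equiv.Perm (Fin j), f.ker).FiniteIndex :=
      Subgroup.finiteIndex_iInf fun f => inferInstance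
    rw [Subgroup.relIndex, Subgroup.subgroupOf,
      Subgroup.comap_map_eq_self_of_injective F.subtype_injective]
    exact h.index_ne_zero
  · by_cases hgF : g ∈ F
    · obtain ⟨n, φ, hφ⟩ := Q2T3.rf_freeGroup (e ⟨g, hgF⟩) fun h =>
        hg (congrArg Subtype.val ((map_eq_one_iff _ e.injective).1 h))
      filter_upwards [eventually_ge_atTop n] with j hj
      rintro ⟨g', h1, rfl⟩
      simp only [SetLike.mem_coe, Subgroup.mem_iInf, MonoidHom.mem_ker] at h1
      exact hφ ((map_eq_one_iff _ (Equiv.Perm.viaEmbeddingHom_injective (Fin.castLEEmb hj))).1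
        (h1 ((Equiv.Perm.viaEmbeddingHom (Fin.castLEEmb hj)).comp (φ.comp e.toMonoidHom))))
    · exact Eventually.of_forall fun j h => hgF (Subgroup.map_subtype_le _ h)

end Pool.Agent.MP_3ce0a0_al.Q2T11
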