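import Pool.Agent.MP_3ce0a0_al.Q2T11.Spec

/-!
Row K1: the normal closure meets a vertex group in the normal closure of the vertex group.
-/

set_option autoImplicit false

namespace Pool.Agent.MP_3ce0a0_al.Q2T11

open Q2T1 Q2T2 Filter MulAction

theorem rowK1 (hU : InUP) : StmtK1 := by
  intro G _ k F A U T x P hn S g hg
  obtain ⟨r, h1, h2, h3⟩ := hU G T F x S.noinv S.te
  have key : ∀ a ∈ NN A U, ∃ ha : a ∈ F, r ⟨a, ha⟩ ∈
      (NN ((stabilizer G x).subtype ⁻¹' A) (U.comap (stabilizer G x).subtype)).map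
        (stabilizer G x).subtype := by
    intro a ha
    induction ha using Subgroup.closure_induction with
    | mem a ha =>
      have haF : a ∈ F := P.sub ha.1
      refine ⟨haF, ?_⟩
      obtain ⟨y, hy⟩ := S.ell a ha.1
      by_cases hf : ∃ f ∈ F, f • x = y
      · obtain ⟨f, hf, rfl⟩ := hf
        have hb : f⁻¹ * a * f⁻¹⁻¹ ∈ F := P.nrm.conj_mem a haF f⁻¹
        have hx : (f⁻¹ * a * f⁻¹⁻¹) • x = x := by
          rw [inv_inv, mul_smul, mul_smul, hy, inv_smul_smul]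
        have e : (⟨a, haF⟩ : F) = ⟨f, hf⟩ * ⟨_, hb⟩ * (⟨f, hf⟩ : F)⁻¹ := by
          ext
          simp only [Subgroup.coe_mul, Subgroup.coe_inv]
          group
        have e' : r ⟨a, haF⟩ = r ⟨f, hf⟩ * (f⁻¹ * a * f⁻¹⁻¹) * (r ⟨f, hf⟩)⁻¹ := by
          rw [e, map_mul, map_mul, map_inv, h2 ⟨_, hb⟩ hx]
        refine ⟨⟨r ⟨a, haF⟩, (h1 _).2⟩, Subgroup.subset_closure ⟨?_, ?_⟩, rfl⟩
        · change r ⟨a, haF⟩ ∈ A
          rw [e']
          exact P.conj _ _ (P.conj _ _ ha.1)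
        · change r ⟨a, haF⟩ ∈ U
          rw [e']
          exact hn.conj_mem _ (hn.conj_mem _ ha.2 _) _
      · rw [h3 ⟨a, haF⟩ y hy fun f hf' e => hf ⟨f, hf', e⟩]
        exact one_mem _
    | one =>
      refine ⟨one_mem _, ?_⟩
      have : r ⟨1, one_mem _⟩ = 1 := map_one r
      rw [this]
      exact one_mem _
    | mul a b _ _ ha hb =>
      obtain ⟨ha, ea⟩ := ha
      obtain ⟨hb, eb⟩ := hb
      refine ⟨mul_mem ha hb, ?_⟩
      have : r ⟨a * b, mul_mem ha hb⟩ = r ⟨a, ha⟩ * r ⟨b, hb⟩ := map_mul r ⟨a, ha⟩ ⟨b, hb⟩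
      rw [this]
      exact mul_mem ea eb
    | inv a _ ha =>
      obtain ⟨ha, ea⟩ := ha
      refine ⟨inv_mem ha, ?_⟩
      have : r ⟨a⁻¹, inv_mem ha⟩ = (r ⟨a, ha⟩)⁻¹ := map_inv r ⟨a, ha⟩
      rw [this]
      exact inv_mem ea
  obtain ⟨hF, g', hg', e⟩ := key g hg
  rw [h2 ⟨g, hF⟩ g.2] at e
  have : g' = g := Subtype.ext e
  exact this ▸ hg'

end Pool.Agent.MP_3ce0a0_al.Q2T11
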