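import Pool.Agent.MP_3ce0a0_al.Q2T11.Spec

/-!
An element that centralises the free group modulo a small normal subgroup moves an edge at a
vertex with non-trivial group like an element of that subgroup.
-/

set_option autoImplicit false

namespace Pool.Agent.MP_3ce0a0_al.Q2T11

open Q2T1 Q2T2 Filter MulAction

namespace RK2

variable {G : Type} [Group G] {T Y : Tr G} {N F U : Subgroup G} {π : T.V → Y.V} {A : Set G}

theorem fix_mid {g : G} {u z v : Y.V} (h : Btw u z v) (h1 : g • u = u) (h2 : g • v = v) :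
    g • z = z := by
  have h3 := BAct.btw g u z v h
  rw [h1, h2] at h3
  exact h3.eq_of_dist h (by rw [← dist_smul g u z, h1])

theorem triv (q : Quo T N Y π) (hN : N.Normal) {n : G} (hn : n ∈ N) (y : Y.V) : n • y = y := by
  obtain ⟨x, rfl⟩ := q.surj y
  rw [← q.equi]
  exact ((q.fib x _).2 ⟨n, hn, rfl⟩).symm

theorem mem (q : Quo T N Y π) (hT : TE T.V F) (hN : N ≤ F) {g : G} (hg : g ∈ F) {u v : Y.V}
    (huv : u ≠ v) (h1 : g • u = u) (h2 : g • v = v) : g ∈ N := by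
  obtain ⟨z, h3, h4⟩ := IsSimp.geo u v huv
  have h5 := fix_mid h4 h1 h2
  obtain ⟨x, rfl⟩ := q.surj u
  obtain ⟨y, h6, rfl⟩ := q.lift x z h3
  obtain ⟨n, hn, e1, e2⟩ := q.uniq x y (g • x) (g • y) h6 (by rw [dist_smul, h6])
    (by rw [q.equi, h1]) (by rw [q.equi, h5])
  have h7 := hT (n⁻¹ * g) (mul_mem (inv_mem (hN hn)) hg) x y h6
    (by rw [mul_smul, ← e1, inv_smul_smul]) (by rw [mul_smul, ← e2, inv_smul_smul])
  rw [← inv_mul_eq_one.1 h7]
  exact hn

theorem fixd (q : Quo T N Y π) (hN' : N.Normal) (hT : TE T.V F) (hN : N ≤ F) {a d : G}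
    (ha : a ∈ F) (ha' : a ∉ N) (hd : Cen F N d) {u : Y.V} (hu : a • u = u) : d • u = u := by
  have h1 := triv q hN' (hd a ha) u
  rw [mul_smul, mul_smul, mul_smul, inv_smul_eq_iff.2 hu.symm, smul_eq_iff_eq_inv_smul] at h1
  by_contra h2
  exact ha' (mem q hT hN ha (fun e => h2 (eq_inv_smul_iff.1 e)) hu h1)

theorem NN_le : NN A U ≤ U := (Subgroup.closure_le _).2 Set.inter_subset_right

theorem NN_normal {k : ℕ} (P : Pre k F A) (hU : U.Normal) : (NN A U).Normal := by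
  refine ⟨fun n hn g => ?_⟩
  induction hn using Subgroup.closure_induction with
  | mem x hx => exact Subgroup.subset_closure ⟨P.conj g x hx.1, hU.conj_mem x hx.2 g⟩
  | one => simpa using one_mem _
  | mul x y _ _ h1 h2 => simpa [mul_assoc] using mul_mem h1 h2
  | inv x _ h1 => simpa [mul_assoc] using inv_mem h1

theorem avoid {Φ : ℕ → Subgroup G} (S : Sq F Φ) {B : Set G} (hB : B.Finite) (h1 : (1 : G) ∉ B) :
    ∀ᶠ j in atTop, ∀ b ∈ B, b ∉ Φ j :=
  (eventually_all_finite hB).2 fun b hb => S.sep b fun e => h1 (e ▸ hb)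

end RK2

open RK2 in
theorem rowK2 (hX : InX6) (hPE : StmtPE) : StmtK2 := by
  intro G _ k F A Φ T x y P S hS hI hxy ⟨a, ha, ha1, hax⟩
  have quo : ∀ j, ∃ (Y : Tr G) (π : T.V → Y.V), Quo T (NN A (Φ j)) Y π := fun j =>
    hX G T _ (NN_normal P (S.nrm j)) hI (Subgroup.closure_mono fun g hg =>
      ⟨Subgroup.subset_closure hg, hS.ell g hg.1⟩)
  have hF : ∀ j, NN A (Φ j) ≤ F := fun j => NN_le.trans (S.le j)
  have key : ∀ j (Y : Tr G) (π : T.V → Y.V), Quo T (NN A (Φ j)) Y π → ∀ b ∈ F, b ∉ Φ j →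
      ∀ z, b • z = z → ∀ d, Cen F (NN A (Φ j)) d → d • π z = π z :=
    fun j Y π q b hb hb' z hz d hd => fixd q (NN_normal P (S.nrm j)) hS.te (hF j) hb
      (fun e => hb' (NN_le e)) hd (by rw [← q.equi, hz])
  by_cases e : x = y
  · subst e
    filter_upwards [S.sep a ha1] with j hj d hd
    obtain ⟨Y, π, q⟩ := quo j
    obtain ⟨n, hn, h1⟩ := (q.fib x (d • x)).1
      (by rw [q.equi, key j Y π q a ha hj x hax d hd])
    exact ⟨n, hn, h1, h1⟩
  have h1 : dist x y = 1 := by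
    obtain ⟨n, hn⟩ := IsSimp.int x y
    have h2 := dist_pos.2 e
    rw [hn] at hxy h2 ⊢
    have h3 : n ≤ 1 := by exact_mod_cast hxy
    have h4 : 0 < n := by exact_mod_cast h2
    rw [show n = 1 by omega, Nat.cast_one]
  obtain ⟨g, hg, hb⟩ := hS.mini x y h1
  obtain ⟨B1, f1, n1, p1⟩ := hPE G T F hS.te x (g • x)
  obtain ⟨B2, f2, n2, p2⟩ := hPE G T F hS.te y (g • x)
  filter_upwards [S.sep a ha1, S.sep (g * a * g⁻¹) (by simpa using ha1), avoid S f1 n1,
    avoid S f2 n2] with j hj hj' b1 b2 d hd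
  obtain ⟨Y, π, q⟩ := quo j
  have e1 := key j Y π q a ha hj x hax d hd
  have e2 := key j Y π q _ (mul_mem (mul_mem hg ha) (inv_mem hg)) hj' (g • x)
    (by rw [mul_smul, mul_smul, inv_smul_smul, hax]) d hd
  have e3 : Btw (π x) (π y) (π (g • x)) := by
    rw [Q2T1.Btw, q.edge x y h1, p1 _ Y π (hF j) q fun b hb e => b1 b hb (NN_le e),
      p2 _ Y π (hF j) q fun b hb e => b2 b hb (NN_le e), ← h1]
    exact hb
  exact q.uniq x y (d • x) (d • y) h1 (by rw [dist_smul, h1]) (by rw [q.equi, e1])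
    (by rw [q.equi, fix_mid e3 e1 e2])

end Pool.Agent.MP_3ce0a0_al.Q2T11
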