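import Pool.Agent.MP_3ce0a0_al.Q2T11.Spec
import Pool.Agent.MP_3ce0a0_al.Q2T7.Defs

/-!
The limit tree and the simplicial lemma, in the form used by this block.
-/

set_option autoImplicit false

namespace Pool.Agent.MP_3ce0a0_al.Q2T11

open Q2T1 Q2T2 Filter MulAction

namespace RLS

theorem side {X : Type} [MetricSpace X] [IsSimp X] {a b : X} (h : dist a b = 1) (z : X) :
    Btw a b z ∨ Btw b a z := by
  obtain ⟨m, h1, h2, h3⟩ := IsTree.ex_med a b z
  obtain ⟨n, hn⟩ := IsSimp.int a m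
  have h4 : dist a m + dist m b = dist a b := h1
  rcases n with _ | n
  · rw [Nat.cast_zero, dist_eq_zero] at hn
    exact Or.inr (hn ▸ h2)
  · have h5 : dist m b ≤ 0 := by
      rw [hn, h, Nat.cast_succ] at h4
      linarith [Nat.cast_nonneg (α := ℝ) n]
    exact Or.inl (dist_le_zero.1 h5 ▸ h3)

theorem finOrb {G : Type} [Group G] {F H : Subgroup G} [hF : F.Normal] {g : G}
    (hi : (H ⊔ F).relIndex ⊤ ≠ 0) (hc : ∀ z ∈ H, Commute z g) : FinOrb F g := by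
  rw [Subgroup.relIndex_top_right] at hi
  have : (H ⊔ F).FiniteIndex := ⟨hi⟩
  refine ⟨Set.range fun q : G ⧸ (H ⊔ F) => q.out * g * q.out⁻¹, Set.finite_range _, fun b => ?_⟩
  obtain ⟨k, hk⟩ := QuotientGroup.mk_out_eq_mul (H ⊔ F) b
  have h1 : (k : G) ∈ ((F ⊔ H : Subgroup G) : Set G) := by
    rw [sup_comm]
    exact k.2
  rw [Subgroup.normal_mul] at h1
  obtain ⟨f, hf, h, hh, e⟩ := h1
  refine ⟨b * f * b⁻¹, hF.conj_mem f hf b, QuotientGroup.mk b, ?_⟩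
  have e1 : h * g * h⁻¹ = g := by rw [(hc h hh).eq, mul_inv_cancel_right]
  have e2 : f * h = (k : G) := e
  show (QuotientGroup.mk b : G ⧸ (H ⊔ F)).out * g * (QuotientGroup.mk b : G ⧸ (H ⊔ F)).out⁻¹ = _
  rw [hk, ← e2]
  conv_rhs => rw [← e1]
  group

end RLS

theorem inLS (hL : Q2T5.SLimitIso) (hI : Q2T7.IndexL) (hS : Q2T7.SimpL) : InLS := by
  intro G _ F k S hF hG hk hfr h1 h2 h3 h4
  obtain ⟨X, _, _, _, hV, hX⟩ := hL G F k hk hfr (fun j => (S j).V) h1 h2 h3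
  obtain ⟨s, hs, hs'⟩ := Group.fg_iff.1 hG
  obtain ⟨T, _, _, _, _, e, he, _, hT, hc, hn⟩ := hS G F ⊤ k X hfr le_top
    ⟨s, hs', by rw [hs, top_sup_eq]⟩ (fun z _ x y => dist_smul z x y) hV (hI G F k X hfr hk hV)
    fun g hg H _ hi hz => (hX g hg (h4 g hg (RLS.finOrb hi hz))).1
  have := hT.ne
  refine ⟨⟨T⟩, hn, hc, fun x => ?_, fun x y hxy => ?_, fun g hg h hh x y hxy => ?_,
    fun g hg hj => ?_⟩
  · obtain ⟨a, _, _, ha⟩ := hT.br x
    obtain ⟨g, hg, h5⟩ := hT.mini x a x ha.1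
    exact ⟨g, hg, ne_of_mem_dir h5⟩
  · obtain ⟨g, hg, h5⟩ := hT.mini x y x fun e' => by
      rw [e', dist_self] at hxy
      exact zero_ne_one hxy
    exact ⟨g, hg, (RLS.side hxy _).resolve_right h5⟩
  · refine hT.v1 g hg h hh x y fun e' => ?_
    rw [e', dist_self] at hxy
    exact zero_ne_one hxy
  · obtain ⟨⟨x, hx⟩, h5⟩ := hX g hg hj
    refine ⟨⟨e x, by rw [← he, hx]⟩, fun hg1 p q hp hq => e.symm.injective (h5 hg1 _ _ ?_ ?_)⟩
    · exact e.injective (by rw [he, e.apply_symm_apply]; exact hp)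
    · exact e.injective (by rw [he, e.apply_symm_apply]; exact hq)

end Pool.Agent.MP_3ce0a0_al.Q2T11
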