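import Pool.Agent.MP_3ce0a0_al.Q2T11.Spec

/-!
The hypotheses pass to subgroups of finite index.
-/

set_option autoImplicit false

namespace Pool.Agent.MP_3ce0a0_al.Q2T11

open Q2T1 Q2T2 Filter MulAction

namespace RRES

variable {G H : Type} [Group G] [Group H] {φ : H →* G} {F : Subgroup G}

theorem bij (hφ : Function.Injective φ) (hF : F ≤ φ.range) :
    Function.Bijective (φ.subgroupComap F) := by
  refine ⟨fun a b h => Subtype.ext (hφ (congrArg Subtype.val h)), fun y => ?_⟩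
  obtain ⟨x, hx⟩ := hF y.2
  exact ⟨⟨x, by rw [Subgroup.mem_comap, hx]; exact y.2⟩, Subtype.ext hx⟩

theorem finOrb (hn : F.Normal) (hi : φ.range.FiniteIndex) {g : H}
    (h : FinOrb (F.comap φ) g) : FinOrb F (φ g) := by
  obtain ⟨P, hP, h⟩ := h
  refine ⟨Set.image2 (fun (q : G ⧸ φ.range) p => q.out * φ p * q.out⁻¹) Set.univ P,
    Set.finite_univ.image2 _ hP, fun b => ?_⟩
  obtain ⟨⟨_, c, rfl⟩, hc⟩ := QuotientGroup.mk_out_eq_mul φ.range b
  obtain ⟨f, hf, hp⟩ := h c⁻¹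
  refine ⟨_, hn.conj_mem _ hf (b : G ⧸ φ.range).out, _, Set.mem_univ (b : G ⧸ φ.range), _, hp, ?_⟩
  simp only [hc, map_mul, map_inv]
  group

theorem nn {A : Set G} (hA : A ⊆ φ.range) (U : Subgroup G) :
    (NN (φ ⁻¹' A) (U.comap φ)).map φ = NN A U := by
  rw [NN, NN, MonoidHom.map_closure, Subgroup.coe_comap, ← Set.preimage_inter,
    Set.image_preimage_eq_of_subset (Set.inter_subset_left.trans hA)]

end RRES

theorem rowRES : StmtRES := by
  intro G H _ _ φ k F A hφ hi hF P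
  have hb := RRES.bij hφ hF
  refine ⟨⟨P.nrm.comap φ, ?_, ?_, ?_, fun g hg => P.sub hg, fun b g hg => ?_, fun g hg h =>
    P.h2 _ hg (RRES.finOrb P.nrm hi h)⟩, fun Φ hΦ => ⟨fun j => Subgroup.comap_mono (hΦ.le j),
    fun j => (hΦ.nrm j).comap φ, fun j => ?_, fun g hg =>
      hΦ.sep (φ g) fun e => hg (hφ (e.trans φ.map_one.symm))⟩, fun U h b => ?_⟩
  · have := P.fg
    exact Group.fg_of_surjective (f := (MonoidHom.ofInjective hφ).symm.toMonoidHom)
      (MonoidHom.ofInjective hφ).symm.surjective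
  · obtain ⟨e⟩ := P.fr
    exact ⟨(MulEquiv.ofBijective _ hb).trans e⟩
  · obtain ⟨S, h1, h2, h3⟩ := P.tree
    refine ⟨S.res (φ.subgroupComap F), fun g _ x => h1 _ (Subgroup.mem_top _) x,
      fun g _ x y hxy hx hy => hb.1 ?_, fun g => h3 (φ.subgroupComap F g)⟩
    rw [map_one]
    exact h2 _ (Subgroup.mem_top _) x y hxy hx hy
  · show φ (b * g * b⁻¹) ∈ A
    rw [map_mul, map_mul, map_inv]
    exact P.conj _ _ hg
  · rw [Subgroup.relIndex_comap, Subgroup.map_comap_eq_self hF]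
    exact hΦ.fi j
  · obtain ⟨m, hm, f, hf, hc⟩ := h (φ b)
    obtain ⟨f, rfl⟩ := hF hf
    refine ⟨m, hm, f, hf, fun g hg => ?_⟩
    have := hc (φ g) hg
    rw [← RRES.nn (fun a ha => hF (P.sub ha)) U] at this
    refine (Subgroup.mem_map_iff_mem hφ).1 ?_
    simpa only [map_mul, map_inv, map_pow] using this

end Pool.Agent.MP_3ce0a0_al.Q2T11
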