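import Pool.Agent.MP_3ce0a0_al.Q2T11.Spec

/-!
Restriction of actions on trees along injective homomorphisms.
-/

set_option autoImplicit false

namespace Pool.Agent.MP_3ce0a0_al.Q2T11

open Q2T1 Q2T2

namespace RTR

variable {G H : Type} [Group G] [Group H] {φ : H →* G} {F : Subgroup G} {A : Set G} {T : Tr G}

theorem lift (hF : F ≤ φ.range) {P : G → Prop} (h : ∃ g ∈ F, P g) : ∃ g ∈ F.comap φ, P (φ g) := by
  obtain ⟨g, h1, h2⟩ := h
  obtain ⟨u, rfl⟩ := hF h1
  exact ⟨u, h1, h2⟩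

theorem te (hφ : Function.Injective φ) (h : TE T.V F) : TE (T.res φ).V (F.comap φ) :=
  fun g hg x y h1 h2 h3 => hφ ((h (φ g) hg x y h1 h2 h3).trans (map_one φ).symm)

theorem coc (hF : F ≤ φ.range) (h : Cocpt F T.V) : Cocpt (F.comap φ) (T.res φ).V :=
  ⟨h.finV.imp fun _ k => ⟨k.1, fun x => lift hF (k.2 x)⟩,
    h.finE.imp fun _ k => ⟨k.1, fun x y e => lift hF (k.2 x y e)⟩⟩

theorem good (hφ : Function.Injective φ) (hF : F ≤ φ.range) (h : Good T F A) :
    Good (T.res φ) (F.comap φ) (φ ⁻¹' A) :=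
  ⟨fun g _ => h.noinv (φ g) trivial, te hφ h.te, coc hF h.coc, fun g hg => h.ell (φ g) hg⟩

end RTR

open RTR in
theorem rowTR : StmtTR := by
  intro G H _ _ φ F A T hφ hF
  refine ⟨good hφ hF, fun h => ⟨fun g hg => h.noinv (φ g) hg, te hφ h.te, coc hF h.coc,
    fun g hg => h.ell (φ g) hg, fun x => lift hF (h.nofix x),
    fun x y e => lift hF (h.mini x y e)⟩,
    fun h a => ⟨fun x => lift hF ((h (φ a)).1 x), fun x y e => lift hF ((h (φ a)).2 x y e)⟩,
    fun h g _ => h (φ g) trivial, ?_⟩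
  rintro hi ⟨E, h1, h2, S, hS⟩
  let ψ : E.map φ →* E := (E.equivMapOfInjective φ hφ).symm.toMonoidHom
  have hψ : ∀ x : E.map φ, φ (ψ x) = x := fun x => by
    have := congrArg Subtype.val ((E.equivMapOfInjective φ hφ).apply_symm_apply x)
    rwa [Subgroup.coe_equivMapOfInjective_apply] at this
  refine ⟨E.map φ, ⟨?_⟩, fun g hg => ?_, S.res ψ, ?_⟩
  · rw [Subgroup.index_map_of_injective _ hφ]
    exact mul_ne_zero h1.1 hi.1
  · obtain ⟨u, rfl⟩ := hF hg
    exact ⟨u, h2 hg, rfl⟩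
  · have := good (φ := ψ) (E.equivMapOfInjective φ hφ).symm.injective
      (fun g _ => (E.equivMapOfInjective φ hφ).symm.surjective g) hS
    have e1 : ((F.comap φ).comap E.subtype).comap ψ = F.comap (E.map φ).subtype :=
      Subgroup.ext fun x => by
        change φ (ψ x) ∈ F ↔ (x : G) ∈ F
        rw [hψ]
    have e2 : ψ ⁻¹' (E.subtype ⁻¹' (φ ⁻¹' A)) = (E.map φ).subtype ⁻¹' A :=
      Set.ext fun x => by
        change φ (ψ x) ∈ A ↔ (x : G) ∈ A
        rw [hψ]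
    rwa [e1, e2] at this

end Pool.Agent.MP_3ce0a0_al.Q2T11
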