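import Pool.Agent.MP_3ce0a0_al.Q2T11.G
import Pool.Agent.MP_3ce0a0_al.Q2T11.RA1
import Pool.Agent.MP_3ce0a0_al.Q2T11.RA2
import Pool.Agent.MP_3ce0a0_al.Q2T11.RA3
import Pool.Agent.MP_3ce0a0_al.Q2T11.RA4
import Pool.Agent.MP_3ce0a0_al.Q2T11.RA5
import Pool.Agent.MP_3ce0a0_al.Q2T11.RAX
import Pool.Agent.MP_3ce0a0_al.Q2T11.RAdA
import Pool.Agent.MP_3ce0a0_al.Q2T11.RAdT
import Pool.Agent.MP_3ce0a0_al.Q2T11.RB
import Pool.Agent.MP_3ce0a0_al.Q2T11.RCY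
import Pool.Agent.MP_3ce0a0_al.Q2T11.RD1
import Pool.Agent.MP_3ce0a0_al.Q2T11.RD3
import Pool.Agent.MP_3ce0a0_al.Q2T11.RE1
import Pool.Agent.MP_3ce0a0_al.Q2T11.RE2
import Pool.Agent.MP_3ce0a0_al.Q2T11.RF
import Pool.Agent.MP_3ce0a0_al.Q2T11.RFIN
import Pool.Agent.MP_3ce0a0_al.Q2T11.RH
import Pool.Agent.MP_3ce0a0_al.Q2T11.RK1
import Pool.Agent.MP_3ce0a0_al.Q2T11.RK2
import Pool.Agent.MP_3ce0a0_al.Q2T11.RLS
import Pool.Agent.MP_3ce0a0_al.Q2T11.RPE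
import Pool.Agent.MP_3ce0a0_al.Q2T11.RRES
import Pool.Agent.MP_3ce0a0_al.Q2T11.RTR
import Pool.Agent.MP_3ce0a0_al.Q2T2.All
import Pool.Agent.MP_3ce0a0_al.Q2T5.Main

/-! Assembly of the block. -/

set_option autoImplicit false

namespace Pool.Agent.MP_3ce0a0_al.Q2T11

theorem kol_of (hI : Q2T7.IndexL) (hS : Q2T7.SimpL) : StmtKol :=
  have x6 : InX6 := inX6 (Q2T2.sQuo Q2T2.sGraph)
  have c : StmtC := rowC Q2T2.sFI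
  have k1 : StmtK1 := rowK1 inUP
  have k2 : StmtK2 := rowK2 x6 rowPE
  have d1 : StmtD1 := rowD1 inDROP
  kol_rows rowCY
    (rowA5 rowCY (rowA1 x6 rowPE) (rowA2 inFF rowAX) (rowA3 inTF inKPS)
      (rowA4 (inCOL (Q2T2.sCol Q2T2.sGraph))))
    (rowB (inLS Q2T5.sLimitIso hI hS)) c rowRES rowTR d1 (rowD3 k1 k2)
    (rowE2 k1 k2 d1 (rowE1 x6 rowPE rowAX rowCY) rowFG) (rowF (inBU Q2T2.sBU)) rowH
    (rowFIN c rowTR rowRES)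

end Pool.Agent.MP_3ce0a0_al.Q2T11
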