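import Pool.Agent.MP_3ce0a0_al.Q2T11.Spec
import Pool.Agent.MP_3ce0a0_al.Q2T1.Serre
import Pool.Agent.MP_3ce0a0_al.Q2T2.Col
import Pool.Agent.MP_3ce0a0_al.Q2T4A.Alg

/-! Shared lemmas for the rows of this block. -/

set_option autoImplicit false

namespace Pool.Agent.MP_3ce0a0_al.Q2T11

open Q2T1 Q2T2 Filter MulAction

noncomputable section

variable {G H : Type} [Group G] [Group H]

theorem dich (T : Tr G) {U : Subgroup G} (h : NoInv T.V U) {g : G} (hg : g ∈ U) :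
    Ell T.V g ∨ Hyp T.V g := by
  rcases hyp_or_sq_fix g (Classical.arbitrary T.V) with h1 | ⟨m, hm⟩
  · exact Or.inr h1
  left
  obtain ⟨n, hn⟩ := IsSimp.int m (g • m)
  induction n using Nat.strong_induction_on generalizing m with
  | _ n ih =>
  by_cases e : m = g • m
  · exact ⟨m, e.symm⟩
  obtain ⟨z, h1, h2⟩ := IsSimp.geo m (g • m) e
  have h3 : Btw m (g • z) (g • m) := by
    have := (h2.smul g).symm
    rwa [hm] at this
  have h4 : g • g • z = z := by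
    have := h2.fix (g := g * g) (by rw [mul_smul, hm]) (by rw [mul_smul, hm])
    rwa [mul_smul] at this
  have h5 : dist (g • z) (g • m) = 1 := by rw [dist_smul, dist_comm, h1]
  have h6 := h2.dist_eq_abs h3
  obtain ⟨k, hk⟩ := IsSimp.int z (g • z)
  have h7 : n ≠ 1 := fun e1 => h g hg m (by rw [hn, e1, Nat.cast_one]) hm
  have h8 : n ≠ 0 := fun e1 => e (dist_eq_zero.1 (by rw [hn, e1, Nat.cast_zero]))
  have h9 : (2 : ℝ) ≤ n := by exact_mod_cast (by omega : 2 ≤ n)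
  refine ih k ?_ z h4 hk
  unfold Q2T1.Btw at h3
  rw [h5, hn] at h3
  rw [hk, h1, abs_of_nonpos (by linarith)] at h6
  have : (k : ℝ) < n := by linarith
  exact_mod_cast this

theorem serre (T : Tr G) (K : Subgroup G) (hf : K.FG) (h : ∀ g ∈ K, Ell T.V g) :
    ∃ x : T.V, ∀ g ∈ K, g • x = x := Q2T1.serre hf h

theorem ell_of_fin (T : Tr G) {U : Subgroup G} (h : NoInv T.V U) {g : G} (hg : g ∈ U)
    (hf : IsOfFinOrder g) : Ell T.V g := ell_of_isOfFinOrder (dich T h hg) hf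

/-- Two distinct fixed points give a fixed edge. -/
theorem fix_edge {T : Tr G} {g : G} {x y : T.V} (hxy : x ≠ y) (hx : g • x = x) (hy : g • y = y) :
    ∃ z, dist x z = 1 ∧ g • z = z := by
  obtain ⟨z, h1, h2⟩ := IsSimp.geo x y hxy
  exact ⟨z, h1, h2.fix hx hy⟩

theorem te_one {T : Tr G} {U : Subgroup G} (h : TE T.V U) {g : G} (hg : g ∈ U) {x y : T.V}
    (hxy : x ≠ y) (hx : g • x = x) (hy : g • y = y) : g = 1 := by
  obtain ⟨z, h1, h2⟩ := fix_edge hxy hx hy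
  exact h g hg x z h1 hx h2

namespace Quo

variable {T Y : Tr G} {N U : Subgroup G} {π : T.V → Y.V} (q : Quo T N Y π)
include q

theorem triv {n : G} (hn : n ∈ N) (y : Y.V) : n • y = y := by
  obtain ⟨x, rfl⟩ := q.surj y
  rw [← q.equi]
  exact ((q.fib _ _).2 ⟨n, hn, rfl⟩).symm

theorem lift2 {u v : Y.V} (h : dist u v = 1) : ∃ x y, dist x y = 1 ∧ π x = u ∧ π y = v := by
  obtain ⟨x, rfl⟩ := q.surj u
  obtain ⟨y, h1, h2⟩ := q.lift x v h
  exact ⟨x, y, h1, rfl, h2⟩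

theorem noInv (hN : N ≤ U) (h : NoInv T.V U) : NoInv Y.V U := by
  intro g hg u h1 h2
  obtain ⟨x, y, h3, rfl, h4⟩ := q.lift2 h1
  obtain ⟨n, hn, h5, h6⟩ := q.uniq (g • x) (g • y) y x (by rw [dist_smul, h3])
    (edge_symm h3) (by rw [q.equi, h4]) (by rw [q.equi, h4, h2])
  rw [← mul_smul] at h5 h6
  exact h (n * g) (U.mul_mem (hN hn) hg) x (by rw [h5, h3]) (by rw [h5, h6])

theorem mem (hT : TE T.V U) (hN : N ≤ U) {g : G} (hg : g ∈ U) {u v : Y.V} (huv : u ≠ v)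
    (hu : g • u = u) (hv : g • v = v) : g ∈ N := by
  obtain ⟨w, h1, h2⟩ := fix_edge huv hu hv
  obtain ⟨x, y, h3, rfl, rfl⟩ := q.lift2 h1
  obtain ⟨n, hn, h5, h6⟩ := q.uniq (g • x) (g • y) x y (by rw [dist_smul, h3]) h3
    (by rw [q.equi, hu]) (by rw [q.equi, h2])
  rw [← mul_smul] at h5 h6
  have := hT (n * g) (U.mul_mem (hN hn) hg) x y h3 h5 h6
  rw [eq_inv_of_mul_eq_one_right this]
  exact N.inv_mem hn

theorem ell {g : G} (h : Ell T.V g) : Ell Y.V g := by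
  obtain ⟨x, hx⟩ := h
  exact ⟨π x, by rw [← q.equi, hx]⟩

/-- An element that fixes a point of the quotient is elliptic up to `N`. -/
theorem ell_lift {g : G} (h : Ell Y.V g) : ∃ n ∈ N, Ell T.V (n * g) := by
  obtain ⟨y, hy⟩ := h
  obtain ⟨x, rfl⟩ := q.surj y
  rw [← q.equi] at hy
  obtain ⟨n, hn, h1⟩ := (q.fib _ _).1 hy
  exact ⟨n, hn, x, by rw [mul_smul, h1]⟩

/-- An element that centralises `g` modulo `N` commutes with it on the quotient. -/
theorem ca {d g : G} (h : d * g * d⁻¹ * g⁻¹ ∈ N) : CA Y.V d g := fun w => by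
  have := q.triv h (g • d • w)
  simpa only [mul_smul, inv_smul_smul] using this

end Quo

theorem NN_le {A : Set G} {U : Subgroup G} : NN A U ≤ U :=
  (Subgroup.closure_le U).2 fun _ h => h.2

theorem mem_NN {A : Set G} {U : Subgroup G} {g : G} (h1 : g ∈ A) (h2 : g ∈ U) : g ∈ NN A U :=
  Subgroup.subset_closure ⟨h1, h2⟩

theorem Fr.free {U : Subgroup G} {k : ℕ} (h : Fr U k) : IsFreeGroup U := by
  obtain ⟨e⟩ := h
  exact IsFreeGroup.ofMulEquiv e.symm

theorem Fr.fg {U : Subgroup G} {k : ℕ} (h : Fr U k) : U.FG := by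
  obtain ⟨e⟩ := h
  exact (Group.fg_iff_subgroup_fg U).1
    (Group.fg_of_surjective (f := e.symm.toMonoidHom) e.symm.surjective)

namespace Pre

variable {k : ℕ} {F : Subgroup G} {A : Set G} (P : Pre k F A)
include P

theorem free : IsFreeGroup F := P.fr.free

theorem fgF : F.FG := P.fr.fg

theorem NN_le_F {U : Subgroup G} : NN A U ≤ F :=
  (Subgroup.closure_le F).2 fun _ h => P.sub h.1

theorem NN_normal {U : Subgroup G} (hU : U.Normal) : (NN A U).Normal := by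
  refine ⟨fun n hn b => ?_⟩
  have : (NN A U).map (MulAut.conj b).toMonoidHom ≤ NN A U := by
    rw [NN, MonoidHom.map_closure]
    refine Subgroup.closure_mono ?_
    rintro _ ⟨a, ha, rfl⟩
    exact ⟨P.conj b a ha.1, hU.conj_mem a ha.2 b⟩
  exact this ⟨n, hn, rfl⟩

theorem conj_iff (b g : G) : b * g * b⁻¹ ∈ A ↔ g ∈ A :=
  ⟨fun h => by simpa [mul_assoc] using P.conj b⁻¹ _ h, P.conj b g⟩

theorem zpow_mem {g : G} (hg : g ∈ A) (n : ℤ) : g ^ n ∈ A := by
  obtain ⟨S, -, -, h⟩ := P.tree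
  exact (h (⟨g, P.sub hg⟩ ^ n)).1 (((h ⟨g, P.sub hg⟩).2 hg).zpow n)

theorem pow_mem {g : G} (hg : g ∈ A) (n : ℕ) : g ^ n ∈ A := by
  simpa using P.zpow_mem hg n

theorem one_mem : (1 : G) ∈ A := by
  obtain ⟨S, -, -, h⟩ := P.tree
  exact (h 1).1 ell_one

end Pre

theorem quo_NN (hX : InX6) {k : ℕ} {F U : Subgroup G} {A : Set G} (P : Pre k F A) (hU : U.Normal)
    (T : Tr G) (h : NoInv T.V (⊤ : Subgroup G)) (he : ∀ g ∈ A, Ell T.V g) :
    ∃ (Y : Tr G) (π : T.V → Y.V), Quo T (NN A U) Y π :=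
  hX G T _ (P.NN_normal hU) h
    (Subgroup.closure_mono fun g hg => ⟨Subgroup.subset_closure hg, he g hg.1⟩)

theorem hyp_quo (hPE : StmtPE) {T : Tr G} {U : Subgroup G} (hT : TE T.V U) {g : G}
    (h : Hyp T.V g) : ∃ B : Set G, B.Finite ∧ (1 : G) ∉ B ∧
      ∀ (N : Subgroup G) (Y : Tr G) (π : T.V → Y.V), N ≤ U → Quo T N Y π → (∀ b ∈ B, b ∉ N) →
        Hyp Y.V g := by
  obtain ⟨x, h1, h2⟩ := hyp_iff_dist.1 h
  obtain ⟨B, b1, b2, b3⟩ := hPE G T U hT x (g • x)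
  obtain ⟨C, c1, c2, c3⟩ := hPE G T U hT x (g • g • x)
  refine ⟨B ∪ C, b1.union c1, fun k => k.elim b2 c2, fun N Y π hN q hb => ?_⟩
  have e1 := b3 N Y π hN q fun b k => hb b (Or.inl k)
  have e2 := c3 N Y π hN q fun b k => hb b (Or.inr k)
  rw [q.equi] at e1
  rw [q.equi, q.equi] at e2
  refine hyp_iff_dist.2 ⟨π x, fun e => h1 ?_, by rw [e1, e2, h2]⟩
  rw [e, dist_self] at e1
  exact (dist_eq_zero.1 e1.symm).symm

theorem Sq.avoid {F : Subgroup G} {Φ : ℕ → Subgroup G} (h : Sq F Φ) {B : Set G} (hB : B.Finite)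
    (h1 : (1 : G) ∉ B) : ∀ᶠ j in atTop, ∀ b ∈ B, b ∉ Φ j :=
  (eventually_all_finite hB).2 fun b hb => h.sep b fun e => h1 (e ▸ hb)

/-- An element that lies in infinitely many terms is trivial. -/
theorem Sq.eq_one {F : Subgroup G} {Φ : ℕ → Subgroup G} (h : Sq F Φ) {g : G}
    (hg : ∀ᶠ j in atTop, g ∈ Φ j) : g = 1 := by
  by_contra hn
  obtain ⟨j, h1, h2⟩ := (hg.and (h.sep g hn)).exists
  exact h2 h1

/-- A common exponent of the quotient. -/
theorem pow_mem_of_relIndex {F U : Subgroup G} (hU : U.Normal) {g : G} (hg : g ∈ F) :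
    g ^ U.relIndex F ∈ U :=
  (U.subgroupOf F).pow_index_mem ⟨g, hg⟩

theorem conj_pm {F K : Subgroup G} (hF : IsFreeGroup F) (hK : K ≤ F)
    (hc : ∀ a ∈ K, ∀ b ∈ K, Commute a b) {b : G} (hb : ∀ g, g ∈ K ↔ b * g * b⁻¹ ∈ K) :
    (∀ g ∈ K, b * g * b⁻¹ = g) ∨ ∀ g ∈ K, b * g * b⁻¹ = g⁻¹ := by
  obtain ⟨c, hc1⟩ := Q2T4A.cyclic_of_comm (K.subgroupOf F)
    fun x hx y hy => Subtype.ext (hc _ hx _ hy)
  have key : ∀ g ∈ K, ∃ i : ℤ, g = (c : G) ^ i := fun g hg => by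
    have : (⟨g, hK hg⟩ : F) ∈ Subgroup.zpowers c := hc1 ▸ hg
    obtain ⟨i, hi⟩ := this
    exact ⟨i, (congrArg Subtype.val hi).symm⟩
  have hcK : (c : G) ∈ K := by
    have : c ∈ K.subgroupOf F := hc1 ▸ Subgroup.mem_zpowers c
    exact this
  by_cases h1 : c = 1
  · left
    intro g hg
    obtain ⟨i, rfl⟩ := key g hg
    simp [h1]
  obtain ⟨i, hi⟩ := key _ ((hb c).1 hcK)
  obtain ⟨j, hj⟩ := key (b⁻¹ * c * b) ((hb _).2 (by simpa [mul_assoc] using hcK))
  have h2 : (c : G) = (c : G) ^ (i * j) := by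
    rw [zpow_mul, ← hi, conj_zpow, ← hj]
    group
  have h3 : (1 : ℤ) = i * j := Q2T4A.zpow_inj h1 (Subtype.ext (by simpa using h2))
  rcases Int.eq_one_or_neg_one_of_mul_eq_one h3.symm with rfl | rfl
  · left
    intro g hg
    obtain ⟨n, rfl⟩ := key g hg
    rw [← conj_zpow, hi, zpow_one]
  · right
    intro g hg
    obtain ⟨n, rfl⟩ := key g hg
    rw [← conj_zpow, hi, zpow_neg_one, inv_zpow]

/-- The tree with one vertex. -/
def Tr.pt (G : Type) [Group G] : Tr G :=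
  letI : MulAction G Unit :=
    { smul := fun _ x => x, one_smul := fun _ => rfl, mul_smul := fun _ _ _ => rfl }
  { V := Unit
    iso := ⟨fun _ => Isometry.of_dist_eq fun _ _ => rfl⟩
    simp :=
      { four := fun _ _ _ _ => le_max_left _ _
        ex_med := fun x _ _ => ⟨x, btw_left _ _, btw_left _ _, btw_left _ _⟩
        int := fun _ _ => ⟨0, by simp⟩
        geo := fun _ _ h => absurd rfl h } }

instance : Subsingleton (Tr.pt G).V := inferInstanceAs (Subsingleton Unit)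

theorem Tr.pt_dist (x y : (Tr.pt G).V) : dist x y = 0 := dist_eq_zero.2 (Subsingleton.elim _ _)

theorem Tr.pt_ell (g : G) : Ell (Tr.pt G).V g := ⟨(), rfl⟩

theorem good_pt {F : Subgroup G} {A : Set G} (h : (F : Set G) ⊆ A) : Good (Tr.pt G) F A :=
  ⟨fun _ _ _ h1 => absurd ((Tr.pt_dist _ _).symm.trans h1) zero_ne_one,
    fun _ _ _ _ h1 => absurd ((Tr.pt_dist _ _).symm.trans h1) zero_ne_one,
    ⟨⟨Set.univ, Set.toFinite _, fun _ => ⟨1, F.one_mem, trivial⟩⟩,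
      ∅, Set.finite_empty, fun _ _ h1 => absurd ((Tr.pt_dist _ _).symm.trans h1) zero_ne_one⟩,
    fun g hg => ⟨fun _ => h hg, fun _ => Tr.pt_ell g⟩⟩

theorem triv_pt (F : Subgroup G) : Triv (Tr.pt G).V F := fun _ =>
  ⟨fun _ => ⟨1, F.one_mem, rfl⟩,
    fun _ _ h1 => absurd ((Tr.pt_dist _ _).symm.trans h1) zero_ne_one⟩

/-- The permutation representation of a quotient. -/
def Tr.descHom (T : Tr G) (φ : G →* H) (hφ : Function.Surjective φ)
    (hk : ∀ g, φ g = 1 → ∀ x : T.V, g • x = x) : H →* Equiv.Perm T.V :=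
  φ.liftOfSurjective hφ ⟨toPermHom G T.V, fun g hg => Equiv.ext (hk g hg)⟩

theorem Tr.descHom_apply (T : Tr G) (φ : G →* H) (hφ : Function.Surjective φ)
    (hk : ∀ g, φ g = 1 → ∀ x : T.V, g • x = x) (g : G) (x : T.V) :
    T.descHom φ hφ hk (φ g) x = g • x := by
  rw [Tr.descHom, MonoidHom.liftOfSurjective, MonoidHom.liftOfRightInverse_comp_apply]
  rfl

/-- The action of a quotient of the group. -/
def Tr.desc (T : Tr G) (φ : G →* H) (hφ : Function.Surjective φ)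
    (hk : ∀ g, φ g = 1 → ∀ x : T.V, g • x = x) : Tr H :=
  { V := T.V, ms := T.ms, act := MulAction.compHom T.V (T.descHom φ hφ hk), simp := T.simp
    ne := T.ne
    iso := @IsIsometricSMul.mk H T.V _ (MulAction.compHom T.V (T.descHom φ hφ hk)).toSMul
      fun h => Isometry.of_dist_eq fun x y => by
        obtain ⟨g, rfl⟩ := hφ h
        change dist (T.descHom φ hφ hk (φ g) x) (T.descHom φ hφ hk (φ g) y) = _
        rw [T.descHom_apply, T.descHom_apply, dist_smul] }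

theorem Tr.desc_smul (T : Tr G) (φ : G →* H) (hφ : Function.Surjective φ)
    (hk : ∀ g, φ g = 1 → ∀ x : T.V, g • x = x) (g : G) (x : (T.desc φ hφ hk).V) :
    φ g • x = (g • (show T.V from x) : T.V) := T.descHom_apply φ hφ hk g x

theorem Tr.desc_dist (T : Tr G) (φ : G →* H) (hφ : Function.Surjective φ)
    (hk : ∀ g, φ g = 1 → ∀ x : T.V, g • x = x) (x y : (T.desc φ hφ hk).V) :
    dist x y = dist (show T.V from x) (show T.V from y) := rfl

theorem res_ell (T : Tr G) (φ : H →* G) (h : H) : Ell (T.res φ).V h ↔ Ell T.V (φ h) := Iff.rfl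

theorem res_hyp (T : Tr G) (φ : H →* G) (h : H) : Hyp (T.res φ).V h ↔ Hyp T.V (φ h) := by
  rw [hyp_iff_dist, hyp_iff_dist]
  rfl

theorem res_noInv (T : Tr G) (φ : H →* G) {U : Subgroup G} {W : Subgroup H} (h : NoInv T.V U)
    (hW : ∀ w ∈ W, φ w ∈ U) : NoInv (T.res φ).V W := fun w hw => h (φ w) (hW w hw)

theorem res_te (T : Tr G) (φ : H →* G) (hφ : Function.Injective φ) {U : Subgroup G}
    {W : Subgroup H} (h : TE T.V U) (hW : ∀ w ∈ W, φ w ∈ U) : TE (T.res φ).V W :=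
  fun w hw x y h1 h2 h3 => (map_eq_one_iff φ hφ).1 (h (φ w) (hW w hw) x y h1 h2 h3)

theorem rowC (hFI : SFI) : StmtC := by
  intro G _ T F hF hc hn
  obtain ⟨E, -, h1, h2, h3⟩ := hFI G T.V F hF hc
  refine ⟨E, h1, h2, fun a => ⟨fun x => ?_, fun x y h => ?_⟩, fun a _ x h4 h5 => ?_⟩
  · obtain ⟨u, hu, h⟩ := (h3 a a.2).1 x
    exact ⟨⟨u, h2 hu⟩, hu, h⟩
  · obtain ⟨u, hu, h⟩ := (h3 a a.2).2 x y h
    exact ⟨⟨u, h2 hu⟩, hu, h⟩
  · obtain ⟨u, hu, h6, h7⟩ := (h3 a a.2).2 x ((a : G) • (show T.V from x)) h4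
    refine hn u hu x (by rw [h6]; exact h4) ?_
    rw [h6, h7]
    exact h5

end

end Pool.Agent.MP_3ce0a0_al.Q2T11
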