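import Pool.Agent.MP_3ce0a0_al.Q2T11.Basic

/-! The induction on the rank. -/

set_option autoImplicit false

namespace Pool.Agent.MP_3ce0a0_al.Q2T11

open Q2T1 Q2T2 Filter MulAction

namespace RG

variable {G : Type} [Group G]

theorem reps (T : Tr G) (F : Subgroup G) (hc : Cocpt F T.V) (ht : Triv T.V F) :
    ∃ R : Set T.V, R.Finite ∧ (∀ y : T.V, ∃ x ∈ R, ∃ g ∈ F, g • x = y) ∧
      ∀ x ∈ R, ∀ x' ∈ R, ∀ g : G, g • x = x' → x = x' := by
  obtain ⟨R, h1, h2⟩ := hc.finV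
  let r : T.V → T.V := fun x => (Quotient.mk (orbitRel F T.V) x).out
  have hr : ∀ x, ∃ g ∈ F, g • x = r x := fun x => by
    obtain ⟨g, hg⟩ := (orbitRel_apply.1 (Quotient.mk_out (s := orbitRel F T.V) x))
    exact ⟨g, g.2, hg⟩
  have he : ∀ x y, (∃ g ∈ F, g • x = y) → r y = r x := by
    rintro x y ⟨g, hg, h⟩
    exact congrArg Quotient.out (Quotient.sound (orbitRel_apply.2 ⟨⟨g, hg⟩, h⟩))
  refine ⟨r '' R, h1.image r, fun y => ?_, ?_⟩
  · obtain ⟨g, hg, h⟩ := h2 y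
    obtain ⟨f, hf, h'⟩ := hr (g • y)
    exact ⟨_, ⟨_, h, rfl⟩, (f * g)⁻¹, F.inv_mem (F.mul_mem hf hg), by
      rw [← h', ← mul_smul f, inv_smul_smul]⟩
  · rintro _ ⟨x, -, rfl⟩ _ ⟨x', -, rfl⟩ g h
    obtain ⟨u, hu, h'⟩ := (ht g).1 (r x)
    rw [← he x (r x) (hr x), ← he (r x) (r x') ⟨u, hu, h'.trans h⟩, he x' (r x') (hr x')]

theorem fi_sup (T : Tr G) (F : Subgroup G) (ht : Triv T.V F) (x : T.V)
    (E : Subgroup (stabilizer G x)) (hE : E.FiniteIndex) :
    (E.map (stabilizer G x).subtype ⊔ F).FiniteIndex := by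
  have := Subgroup.finite_quotient_of_finiteIndex (H := E)
  have : Finite (G ⧸ (E.map (stabilizer G x).subtype ⊔ F)) := by
    refine Finite.of_surjective (fun q : stabilizer G x ⧸ E =>
      (Quotient.map' (stabilizer G x).subtype (fun a b h => ?_) q :
        G ⧸ (E.map (stabilizer G x).subtype ⊔ F))) fun q => ?_
    · rw [QuotientGroup.leftRel_apply] at h ⊢
      exact Subgroup.mem_sup_left ⟨_, h, rfl⟩
    · obtain ⟨g, rfl⟩ := QuotientGroup.mk_surjective q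
      obtain ⟨u, hu, h⟩ := (ht g⁻¹).1 x
      refine ⟨QuotientGroup.mk ⟨g * u, by rw [mem_stabilizer_iff, mul_smul, h, smul_inv_smul]⟩, ?_⟩
      refine QuotientGroup.eq.2 (Subgroup.mem_sup_right ?_)
      simpa using hu
  exact Subgroup.finiteIndex_of_finite_quotient

theorem mem_of_sup {X : Type} [MulAction G X] (F : Subgroup G) [F.Normal] (x : X)
    (E : Subgroup (stabilizer G x)) (hE : F.comap (stabilizer G x).subtype ≤ E)
    (b : stabilizer G x) (hb : (b : G) ∈ E.map (stabilizer G x).subtype ⊔ F) : b ∈ E := by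
  have h : (b : G) ∈ ((E.map (stabilizer G x).subtype ⊔ F : Subgroup G) : Set G) := hb
  rw [Subgroup.mul_normal] at h
  obtain ⟨_, ⟨e, he, rfl⟩, f, hf, h⟩ := h
  have h1 : e⁻¹ * b ∈ E := hE (by
    rw [Subgroup.mem_comap, map_mul, map_inv, Subgroup.subtype_apply b, ← h]
    simpa using hf)
  simpa using E.mul_mem he h1

/-- The step of the induction. -/
theorem step (hRES : StmtRES) (hTR : StmtTR) (hE2 : StmtE2) (hF : StmtF) {k : ℕ}
    {F : Subgroup G} {A : Set G} {Φ : ℕ → Subgroup G} (T : Tr G) (P : Pre k F A) (hS : Sq F Φ)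
    (h3 : ∀ᶠ j in atTop, H3 F A (Φ j)) (sp : Split T F A) (hn : NoInv T.V (⊤ : Subgroup G))
    (ht : Triv T.V F)
    (ih : ∀ x : T.V, Out (F.comap (stabilizer G x).subtype) ((stabilizer G x).subtype ⁻¹' A)) :
    Out F A := by
  have := P.nrm
  obtain ⟨R, r1, r2, r3⟩ := reps T F sp.coc ht
  choose E e1 e2 S hg using ih
  have : Finite R := r1
  let L : Subgroup G := ⨅ x : R, ((E x).map (stabilizer G (x : T.V)).subtype ⊔ F)
  have l1 : L.FiniteIndex := Subgroup.finiteIndex_iInf fun x => fi_sup T F ht x _ (e1 x)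
  have l2 : F ≤ L := le_iInf fun x => le_sup_right
  have l3 : L.subtype.range.FiniteIndex := by rwa [Subgroup.range_subtype]
  have l4 : F ≤ L.subtype.range := by rwa [Subgroup.range_subtype]
  obtain ⟨P', s', h'⟩ := hRES G L L.subtype k F A L.subtype_injective l3 l4 P
  obtain ⟨-, t2, t3, t4, -⟩ := hTR G L L.subtype F A T L.subtype_injective l4
  let ψ : ∀ x : R, stabilizer L (show (T.res L.subtype).V from x.1) →* E x := fun x =>
    { toFun := fun b => ⟨⟨b.1.1, b.2⟩,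
        mem_of_sup F x.1 (E x) (e2 x) _ (Subgroup.mem_iInf.1 b.1.2 x)⟩
      map_one' := rfl
      map_mul' := fun _ _ => rfl }
  have g1 : ∀ x : R, Good ((S x).res (ψ x))
      ((F.comap L.subtype).comap (stabilizer L (show (T.res L.subtype).V from x.1)).subtype)
      ((stabilizer L (show (T.res L.subtype).V from x.1)).subtype ⁻¹' (L.subtype ⁻¹' A)) := fun x =>
    (hTR (E x) _ (ψ x) _ _ (S x)
      (fun a b h => Subtype.ext (Subtype.ext (congrArg (fun c : E x => c.1.1) h)))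
      (fun c hc => ⟨⟨⟨c.1.1, l2 hc⟩, c.1.2⟩, rfl⟩)).1 (hg x)
  refine ⟨L, l1, l2, hF L k _ _ (T.res L.subtype) R (fun x => (S x.1).res (ψ x)) P' (t2 sp) (t4 hn)
    r1 (fun y => ?_) (fun x hx x' hx' g h => r3 x hx x' hx' g h) g1 fun x y h => ?_⟩
  · obtain ⟨x, hx, g, hg, h⟩ := r2 y
    exact ⟨x, hx, ⟨g, l2 hg⟩, hg, h⟩
  · exact hE2 L k _ _ _ (T.res L.subtype) x y _ P' (s' Φ hS) (h3.mono fun j hj => h' _ hj)
      (t2 sp) (t4 hn) (t3 ht) h (g1 x)

theorem out (hCY : StmtCY) (hA : StmtA5) (hB : StmtB) (hC : StmtC) (hRES : StmtRES)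
    (hTR : StmtTR) (hD1 : StmtD1) (hD3 : StmtD3) (hE2 : StmtE2) (hF : StmtF) (k : ℕ) :
    ∀ (G : Type) [Group G] (F : Subgroup G) (A : Set G) (Φ : ℕ → Subgroup G), Pre k F A →
      Sq F Φ → (∀ᶠ j in atTop, H3 F A (Φ j)) → Out F A := by
  induction k using Nat.strong_induction_on with
  | _ k ih =>
  intro G _ F A Φ P hS h3
  obtain ⟨-, c2, c3⟩ := hCY G k F A P
  by_cases hA' : (F : Set G) ⊆ A
  · obtain ⟨T, hT⟩ := c3 hA'
    exact ⟨⊤, inferInstance, le_top, T.res _, (hTR G _ _ F A T (⊤ : Subgroup G).subtype_injective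
      (by rw [Subgroup.range_subtype]; exact le_top)).1 hT⟩
  obtain ⟨T, sp⟩ := hB G k F A Φ P hS (c2 hA').1 (hA G k F A Φ P hS h3 hA')
  obtain ⟨L, l1, l2, ht, hn⟩ := hC G T F P.nrm sp.coc sp.noinv
  have l3 : L.subtype.range.FiniteIndex := by rwa [Subgroup.range_subtype]
  have l4 : F ≤ L.subtype.range := by rwa [Subgroup.range_subtype]
  obtain ⟨P', s', h'⟩ := hRES G L L.subtype k F A L.subtype_injective l3 l4 P
  obtain ⟨-, t2, -, -, t5⟩ := hTR G L L.subtype F A T L.subtype_injective l4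
  have h3' := h3.mono fun j hj => h' _ hj
  refine t5 l3 (step hRES hTR hE2 hF (T.res L.subtype) P' (s' Φ hS) h3' (t2 sp) hn ht fun x => ?_)
  obtain ⟨⟨k', hk, P''⟩, s''⟩ := hD1 L k _ _ (T.res L.subtype) x P' (t2 sp) ht
  exact ih k' hk _ _ _ _ P'' (s'' _ (s' Φ hS))
    (hD3 L k _ _ _ (T.res L.subtype) x P' (s' Φ hS) h3' (t2 sp) hn)

end RG

theorem kol_rows (hCY : StmtCY) (hA : StmtA5) (hB : StmtB) (hC : StmtC) (hRES : StmtRES)
    (hTR : StmtTR) (hD1 : StmtD1) (hD3 : StmtD3) (hE2 : StmtE2) (hF : StmtF) (hH : StmtH)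
    (hFIN : StmtFIN) : StmtKol := by
  intro G _ k F A P h
  obtain ⟨Φ, hΦ⟩ := hH G k F P.nrm P.fr
  exact hFIN G k F A P (RG.out hCY hA hB hC hRES hTR hD1 hD3 hE2 hF k G F A Φ P hΦ
    (Eventually.of_forall fun j => h _ (hΦ.le j) (hΦ.nrm j) (hΦ.fi j)))

end Pool.Agent.MP_3ce0a0_al.Q2T11
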