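import Pool.Agent.MP_3ce0a0_al.Q2T11.Spec
import Pool.Agent.MP_3ce0a0_al.Q2T4A.Alg

/-! Row CY: the abelian case. -/

set_option autoImplicit false

namespace Pool.Agent.MP_3ce0a0_al.Q2T11

open Q2T1 Q2T2 Q2T4A

namespace CYAux

variable {G : Type} [Group G]

theorem isFree {F : Subgroup G} {k : ℕ} (h : Fr F k) : IsFreeGroup F :=
  IsFreeGroup.ofMulEquiv h.some.symm

theorem conj_mem_pair {F : Subgroup G} [IsFreeGroup F] (hn : F.Normal)
    (hc : ∀ a ∈ F, ∀ b ∈ F, Commute a b) {g : G} (hg : g ∈ F) (b : G) :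
    b * g * b⁻¹ ∈ ({g, g⁻¹} : Set G) := by
  by_cases h1 : g = 1
  · left
    simp [h1]
  obtain ⟨r, hr⟩ := cent_cyc (G := F) (b := ⟨g, hg⟩) fun e => h1 (congrArg Subtype.val e)
  have hz : ∀ x ∈ F, ∃ i : ℤ, (r : G) ^ i = x := fun x hx => by
    obtain ⟨i, hi⟩ := (hr ⟨x, hx⟩).1 (Subtype.ext (hc x hx g hg))
    exact ⟨i, congrArg Subtype.val hi⟩
  obtain ⟨n, rfl⟩ := hz g hg
  obtain ⟨i, hi⟩ := hz _ (hn.conj_mem _ r.2 b)
  obtain ⟨j, hj⟩ := hz _ (hn.conj_mem _ r.2 b⁻¹)
  have hr1 : r ≠ 1 := fun e => h1 (by simp [e])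
  have h2 : (r : G) ^ (i * j) = (r : G) ^ (1 : ℤ) := by
    rw [zpow_mul, hi, conj_zpow, hj]
    group
  have h3 : i * j = 1 := zpow_inj hr1 (Subtype.ext (by simpa using h2))
  rw [← conj_zpow, ← hi]
  rcases Int.eq_one_or_neg_one_of_mul_eq_one h3 with rfl | rfl
  · left
    simp
  · right
    simp

theorem comm_of_subsingleton {β : Type} [Subsingleton β] (x y : FreeGroup β) : Commute x y := by
  have h : ∀ (a : β) (z : FreeGroup β), Commute (FreeGroup.of a) z := fun a z => by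
    induction z using FreeGroup.induction_on with
    | C1 => exact Commute.one_right _
    | of b => rw [Subsingleton.elim a b]
    | inv_of b hb => exact hb.inv_right
    | mul _ _ h1 h2 => exact h1.mul_right h2
  induction x using FreeGroup.induction_on with
  | C1 => exact Commute.one_left _
  | of b => exact h b y
  | inv_of b hb => exact hb.inv_left
  | mul _ _ h1 h2 => exact h1.mul_left h2

theorem isSimp_unit : IsSimp PUnit.{1} where
  four _ _ _ _ := by simp [Subsingleton.elim _ PUnit.unit]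
  ex_med _ _ _ := ⟨PUnit.unit, by simp [Q2T1.Btw], by simp [Q2T1.Btw], by simp [Q2T1.Btw]⟩
  int _ _ := ⟨0, by simp⟩
  geo _ _ h := (h (Subsingleton.elim _ _)).elim

/-- The tree with one point. -/
noncomputable def pt (G : Type) [Group G] : Tr G :=
  { V := PUnit.{1}, ms := inferInstance, act := inferInstance, simp := isSimp_unit
    ne := inferInstance
    iso := ⟨fun _ _ _ => rfl⟩ }

instance : Subsingleton (pt G).V := inferInstanceAs (Subsingleton PUnit.{1})

theorem not_edge (x y : (pt G).V) : dist x y ≠ 1 := by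
  rw [Subsingleton.elim x y, dist_self]
  exact zero_ne_one

end CYAux

open CYAux

theorem rowCY : StmtCY := by
  intro G _ k F A P
  have := isFree P.fr
  have h1 : (∀ a ∈ F, ∀ b ∈ F, Commute a b) → (F : Set G) ⊆ A := fun hc g hg =>
    P.h2 g hg ⟨{g, g⁻¹}, Set.toFinite _, fun b =>
      ⟨1, one_mem _, by simpa using conj_mem_pair P.nrm hc hg b⟩⟩
  refine ⟨h1, fun hA => ?_, fun hA => ?_⟩
  · have h2 : ∃ a ∈ F, ∃ b ∈ F, ¬ Commute a b := by
      by_contra hne
      exact hA (h1 fun a ha b hb => by_contra fun h => hne ⟨a, ha, b, hb, h⟩)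
    obtain ⟨a, ha, b, hb, hab⟩ := h2
    constructor
    · by_contra hk
      have : Subsingleton (Fin k) := Fin.subsingleton_iff_le_one.2 (by omega)
      obtain ⟨e⟩ := P.fr
      have h3 := (comm_of_subsingleton (e ⟨a, ha⟩) (e ⟨b, hb⟩)).map e.symm
      rw [e.symm_apply_apply, e.symm_apply_apply] at h3
      exact hab (h3.map F.subtype)
    · refine ⟨a, ha, b, hb, fun h => hab ?_⟩
      have h3 : Commute ((⟨a, ha⟩ : F) ^ 2) ((⟨b, hb⟩ : F) ^ 2) := Subtype.ext h
      exact ((comm_pow_iff two_ne_zero two_ne_zero).1 h3).map F.subtype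
  · refine ⟨pt G, fun g _ x h => (not_edge _ _ h).elim,
      fun g _ x y h => (not_edge _ _ h).elim,
      ⟨⟨Set.univ, Set.toFinite _, fun x => ⟨1, one_mem _, trivial⟩⟩,
        ⟨∅, Set.finite_empty, fun x y h => (not_edge _ _ h).elim⟩⟩, fun g hg =>
      ⟨fun _ => hA hg, fun _ => ⟨PUnit.unit, Subsingleton.elim _ _⟩⟩⟩

end Pool.Agent.MP_3ce0a0_al.Q2T11
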