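import Pool.Agent.MP_3ce0a0_al.Q2T11.Spec
import Pool.Agent.MP_3ce0a0_al.Q2T2.Col

/-! A geodesic embeds in the quotient by a group that avoids a finite set. -/

set_option autoImplicit false

namespace Pool.Agent.MP_3ce0a0_al.Q2T11

open Q2T1 Q2T2 Filter MulAction

theorem rowPE : StmtPE := by
  intro G _ T U hT x y
  refine geo_ind (P := fun y => ∃ B : Set G, B.Finite ∧ (1 : G) ∉ B ∧
    ∀ (N : Subgroup G) (Y : Tr G) (π : T.V → Y.V), N ≤ U → Quo T N Y π → (∀ b ∈ B, b ∉ N) →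
      dist (π x) (π y) = dist x y) x ⟨∅, Set.finite_empty, fun h => h, fun _ _ _ _ _ _ => by simp⟩
    ?_ y
  rintro a b hab hb ⟨B, hB, h1, ih⟩
  by_cases e : x = a
  · subst e
    exact ⟨∅, Set.finite_empty, fun h => h, fun N Y π _ q _ => by rw [q.edge _ _ hab, hab]⟩
  obtain ⟨w, hw, hw'⟩ := exists_last e
  have hwb : w ≠ b := fun e' => by
    subst e'
    exact ne_of_edge hw (hw'.antisymm hb)
  have hs : {g : G | g ∈ U ∧ g • a = a ∧ g • w = b}.Subsingleton := by
    rintro g ⟨g1, g2, g3⟩ g' ⟨g1', g2', g3'⟩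
    have := hT (g⁻¹ * g') (mul_mem (inv_mem g1) g1') w a hw
      (by rw [mul_smul, g3', inv_smul_eq_iff, g3]) (by rw [mul_smul, g2', inv_smul_eq_iff, g2])
    exact inv_mul_eq_one.1 this
  refine ⟨B ∪ {g : G | g ∈ U ∧ g • a = a ∧ g • w = b}, hB.union hs.finite, ?_,
    fun N Y π hN q hn => ?_⟩
  · rintro (h | ⟨-, -, h⟩)
    · exact h1 h
    · exact hwb (by simpa using h)
  have i1 := ih N Y π hN q fun g hg => hn g (Or.inl hg)
  have i2 : π w ≠ π b := fun e' => by
    obtain ⟨n, n1, n2, n3⟩ := q.uniq a w a b (edge_symm hw) hab rfl e'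
    exact hn n (Or.inr ⟨hN n1, n2, n3⟩) n1
  have i3 : Btw (π w) (π a) (π b) := btw_of_edges (q.edge _ _ hw) (q.edge _ _ hab) i2
  have i4 : dist (π x) (π w) ≤ dist x w := by
    refine geo_ind (P := fun y => dist (π x) (π y) ≤ dist x y) x (by simp) ?_ w
    intro c d k1 k2 k3
    have k4 := dist_triangle (π x) (π c) (π d)
    unfold Q2T1.Btw at k2
    rw [q.edge _ _ k1] at k4
    linarith
  have i5 : Btw (π x) (π w) (π a) := by
    apply btw_of_le
    unfold Q2T1.Btw at hw'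
    rw [q.edge _ _ hw, i1]
    linarith
  have i6 : Btw (π x) (π a) (π b) := i5.concat_right i3 (ne_of_edge (q.edge _ _ hw))
  unfold Q2T1.Btw at i6 hb
  rw [← i6, ← hb, i1, q.edge _ _ hab, hab]

end Pool.Agent.MP_3ce0a0_al.Q2T11
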